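import Pool.Agent.T2H07.RealE
import Pool.Agent.R885.W9
import Pool.Agent.R887.Frm

/-!
Rational convex combinations of pairs commensurable with nondegenerate pairs.
-/

set_option autoImplicit false
set_option linter.overlappingInstances false
set_option linter.unusedSectionVars false

open FF Filter Topology IntermediateField Pool.Agent.W602.GT Pool.Agent.W603.LV
  Pool.Agent.W619.PQ Pool.Agent.W619.TW Pool.Agent.W619.Y Pool.Agent.Y172 Pool.Agent.Y191
  Pool.Agent.Y174 Pool.Agent.R885 Pool.Agent.T2H41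

namespace Pool.Agent.T2H07

section

variable {K : Type} [Field K] [Algebra ℂ K] {N n : ℕ} {y : Fin (N + 1) → K}

theorem conv_sub {s : ℕ} {t : Fin s → ℚ} (ht1 : ∑ i, t i = 1) (a : Fin s → ℚ) :
    ∑ i, t i * (1 - a i) = 1 - ∑ i, t i * a i := by
  simp only [mul_sub, mul_one, Finset.sum_sub_distrib, ht1]

/-- the order of a form is the order of its value on a local frame -/
theorem ordEq_loc {P : Place ℂ K} {w : Fin n → K} {G : Fin n → Derivation ℂ K K} {i0 : Fin n}
    (hl : Loc P w G i0) {s : ℕ} {θ : (Fin n → Derivation ℂ K K) → K} (hθ : IsPluri s θ)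
    {z : ℚ} (hz : OrdEq P θ z) : θ G ≠ 0 ∧ (P.ord (θ G) : ℚ) = z := by
  obtain ⟨h1, E0, hE0, h2, h3⟩ := hz
  have h4 := pluri_coord hl.bas hl.dual hθ E0
  have h5 : (Matrix.of fun i j => E0 i (w j)).det ^ s ≠ 0 := by
    intro h6
    rw [h6, zero_mul] at h4
    exact h2 h4
  have h6 : θ G ≠ 0 := by
    intro h7
    rw [h7, mul_zero] at h4
    exact h2 h4
  refine ⟨h6, le_antisymm ?_ ((h1 G hl.pres).resolve_left h6)⟩
  rw [← h3, h4, P.ord_mul h5 h6]
  have h7 : P.Reg ((Matrix.of fun i j => E0 i (w j)).det ^ s) := by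
    have h8 : P.Reg (Matrix.of fun i j => E0 i (w j)).det :=
      _root_.Pool.Agent.R887.det_reg fun i j => hE0 i _ (hl.reg j)
    rcases h8 with h8 | h8
    · by_cases hs : s = 0
      · rw [hs, pow_zero]
        exact P.reg_one
      · exact absurd (by rw [h8, zero_pow hs]) h5
    · right
      rw [P.ord_pow]
      positivity
  have h8 := (P.reg_iff h5).1 h7
  have h9 : P.ord (θ G) ≤ P.ord ((Matrix.of fun i j => E0 i (w j)).det ^ s) + P.ord (θ G) := by
    omega
  exact_mod_cast h9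

/-- common denominators -/
theorem exists_den {s : ℕ} (c : Fin s → ℚ) (hc : ∀ i, 0 ≤ c i) (r : Fin s → ℕ) (hr : ∀ i, 0 < r i) :
    ∃ m : ℕ, 0 < m ∧ ∃ k : Fin s → ℕ, ∀ i, (k i : ℚ) * r i = m * c i := by
  classical
  refine ⟨(∏ i, (c i).den) * ∏ i, r i, Nat.mul_pos (Finset.prod_pos fun i _ => (c i).den_pos)
    (Finset.prod_pos fun i _ => hr i), fun i =>
    (∏ j ∈ Finset.univ.erase i, (c j).den) * (c i).num.toNat * ∏ j ∈ Finset.univ.erase i, r j,
    fun i => ?_⟩
  rw [← Finset.mul_prod_erase Finset.univ (fun j => (c j).den) (Finset.mem_univ i),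
    ← Finset.mul_prod_erase Finset.univ r (Finset.mem_univ i)]
  have h1 : (((c i).num.toNat : ℕ) : ℚ) = c i * (c i).den := by
    rw [Rat.mul_den_eq_num]
    have h2 : 0 ≤ (c i).num := Rat.num_nonneg.2 (hc i)
    have h3 : (((c i).num.toNat : ℕ) : ℤ) = (c i).num := Int.toNat_of_nonneg h2
    exact_mod_cast h3
  push_cast
  rw [h1]
  ring

theorem isPluri_prod {s : ℕ} {r k : Fin s → ℕ} {η : Fin s → (Fin n → Derivation ℂ K K) → K}
    (h : ∀ i, IsPluri (r i) (η i)) : IsPluri (∑ i, k i * r i) (fun D => ∏ i, η i D ^ k i) := by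
  intro A D
  beta_reduce
  rw [← Finset.prod_pow_eq_pow_sum, ← Finset.prod_mul_distrib]
  refine Finset.prod_congr rfl fun i _ => ?_
  rw [h i A D, mul_pow, ← pow_mul, mul_comm (k i)]

theorem ord_prod {s : ℕ} (P : Place ℂ K) {f : Fin s → K} (hf : ∀ i, f i ≠ 0) (k : Fin s → ℕ) :
    P.ord (∏ i, f i ^ k i) = ∑ i, (k i : ℤ) * P.ord (f i) := by
  classical
  have : ∀ T : Finset (Fin s), P.ord (∏ i ∈ T, f i ^ k i) = ∑ i ∈ T, (k i : ℤ) * P.ord (f i) := by
    intro T
    induction T using Finset.induction_on with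
    | empty => simp [P.ord_one]
    | insert i T hi ih =>
      rw [Finset.prod_insert hi, Finset.sum_insert hi, P.ord_mul (pow_ne_zero _ (hf i))
        (Finset.prod_ne_zero_iff.2 fun j _ => pow_ne_zero _ (hf j)), ih, P.ord_pow]
  exact this Finset.univ

/-- the log discrepancies of a convex combination -/
theorem logDisc_convex (hn : Algebra.trdeg ℂ K = (n : ℕ)) (hy : NormalModel y) {s : ℕ}
    {Δ : Fin s → Place ℂ K → ℚ} {Q : Place ℂ K} (hQ : Divisorial n Q) {α : Fin s → ℚ}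
    (h : ∀ i, LogDisc y n (Δ i) Q (α i)) {c : Fin s → ℚ} (hc : ∀ i, 0 ≤ c i)
    (hc1 : ∑ i, c i = 1) : LogDisc y n (fun P => ∑ i, c i * Δ i P) Q (∑ i, c i * α i) := by
  classical
  have hess := hy.ess
  by_cases hQp : IsPrimeDivisor y Q
  · left
    refine ⟨hQp, ?_⟩
    have h1 : ∀ i, α i ≤ 1 - Δ i Q := by
      intro i
      rcases h i with ⟨-, h1⟩ | ⟨r, hr, η, hη, h2, h3⟩
      · exact h1
      · obtain ⟨z, G, i0, hl⟩ := exists_loc hn hQ
        obtain ⟨h4, h5⟩ := ordEq_loc hl hη (h2 Q hQp fun f hf => localRing_reg hf)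
        have h6 := (h3 G hl.pres).resolve_left h4
        rw [h5] at h6
        have hr' : (0 : ℚ) < r := by exact_mod_cast hr
        nlinarith
    have h2 : ∑ i, c i * α i ≤ ∑ i, c i * (1 - Δ i Q) :=
      Finset.sum_le_sum fun i _ => mul_le_mul_of_nonneg_left (h1 i) (hc i)
    have h3 : ∑ i, c i * (1 - Δ i Q) = 1 - ∑ i, c i * Δ i Q := conv_sub hc1 _
    linarith
  · right
    have h1 : ∀ i, ∃ r : ℕ, 0 < r ∧ ∃ η : (Fin n → Derivation ℂ K K) → K, IsPluri r η ∧
        (∀ P, IsPrimeDivisor y P → Through y P Q → OrdEq P η (-(r * Δ i P))) ∧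
        OrdGe Q η (r * (α i - 1)) := fun i => (h i).resolve_left fun h2 => hQp h2.1
    choose r hr η hη hEq hGe using h1
    obtain ⟨m, hm, k, hk⟩ := exists_den c hc r hr
    have hsum : ∑ i, k i * r i = m := by
      have h2 : ((∑ i, k i * r i : ℕ) : ℚ) = m := by
        push_cast
        rw [Finset.sum_congr rfl fun i _ => hk i, ← Finset.mul_sum, hc1, mul_one]
      exact_mod_cast h2
    have hpl := isPluri_prod (k := k) hη
    rw [hsum] at hpl
    refine ⟨m, hm, fun D => ∏ i, η i D ^ k i, hpl, fun P hP ht => ?_, ?_⟩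
    · obtain ⟨z, G, i0, hl⟩ := exists_loc hn (hP.divisorial hy hn)
      have h2 : ∀ i, η i G ≠ 0 ∧ (P.ord (η i G) : ℚ) = -(r i * Δ i P) := fun i =>
        ordEq_loc hl (hη i) (hEq i P hP ht)
      refine (ordEq_iff hl hpl (Finset.prod_ne_zero_iff.2 fun i _ => pow_ne_zero _ (h2 i).1)).2 ?_
      rw [ord_prod P (fun i => (h2 i).1)]
      push_cast
      rw [Finset.mul_sum, ← Finset.sum_neg_distrib]
      refine Finset.sum_congr rfl fun i _ => ?_
      rw [(h2 i).2]
      have h3 := hk i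
      calc (k i : ℚ) * -(r i * Δ i P) = -((k i * r i) * Δ i P) := by ring
        _ = -(m * (c i * Δ i P)) := by rw [h3]; ring
    · intro D hD
      by_cases h0 : ∏ i, η i D ^ k i = 0
      · exact Or.inl h0
      right
      have h2 : ∀ i, k i ≠ 0 → η i D ≠ 0 := by
        intro i hi h3
        exact h0 (Finset.prod_eq_zero (Finset.mem_univ i) (by rw [h3, zero_pow hi]))
      have h3 : ∏ i, η i D ^ k i = ∏ i, (if k i = 0 then 1 else η i D) ^ k i := by
        refine Finset.prod_congr rfl fun i _ => ?_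
        split_ifs with hi
        · rw [hi, pow_zero, pow_zero]
        · rfl
      have h4 : ∀ i, (if k i = 0 then 1 else η i D) ≠ 0 := by
        intro i
        split_ifs with hi
        · exact one_ne_zero
        · exact h2 i hi
      have h5 : (m : ℚ) = ∑ i, (k i : ℚ) * r i := by
        rw [Finset.sum_congr rfl fun i _ => hk i, ← Finset.mul_sum, hc1, mul_one]
      have key : (m : ℚ) * (∑ i, c i * α i - 1) = ∑ i, (k i : ℚ) * (r i * (α i - 1)) := by
        have h6 : (m : ℚ) * ∑ i, c i * α i = ∑ i, (k i : ℚ) * r i * α i := by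
          rw [Finset.mul_sum]
          refine Finset.sum_congr rfl fun i _ => ?_
          rw [hk i]
          ring
        rw [mul_sub, h6, mul_one, h5, ← Finset.sum_sub_distrib]
        exact Finset.sum_congr rfl fun i _ => by ring
      rw [key]
      beta_reduce
      rw [h3, ord_prod Q h4]
      push_cast
      refine Finset.sum_le_sum fun i _ => ?_
      by_cases hi : k i = 0
      · rw [hi]
        simp
      · rw [if_neg hi]
        exact mul_le_mul_of_nonneg_left ((hGe i D hD).resolve_left (h2 i hi)) (Nat.cast_nonneg _)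

end

section

variable {L : Type} [Field L] [Algebra ℂ L]

/-- `x` is the generic point of a subvariety `X₀` of dimension `n`, with function field `L`, of the
set of common zeros of the `f l` in the torus `(ℂ^*) ^ r`, not contained in the sets `h j = 0`. -/
def IsGenericPoint {r q p : ℕ} (n : ℕ) (f : Fin q → (Fin r → ℤ) →₀ ℂ)
    (h : Fin p → (Fin r → ℤ) →₀ ℂ) (x : Fin r → L) : Prop :=
  (∀ i, x i ≠ 0) ∧ (∀ l, ev x (f l) = 0) ∧ (∀ j, ev x (h j) ≠ 0) ∧
    IntermediateField.adjoin ℂ (Set.range x) = ⊤ ∧ Algebra.trdeg ℂ L = (n : ℕ)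

/-- The pair is nondegenerate along the subvariety `X₀` of the torus with the generic point `x`: for
all subsets `V` and all integral vectors `v`, the logarithmic gradients of the initial parts of the
`f l` and of the `h j`, `j ∈ V`, are linearly independent at the points `c` of the initial
degeneration of `X₀` at which the initial parts of the `h j`, `j ∈ V`, vanish. -/
def Nondegenerate {r q p : ℕ} (f : Fin q → (Fin r → ℤ) →₀ ℂ) (h : Fin p → (Fin r → ℤ) →₀ ℂ)
    (x : Fin r → L) : Prop :=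
  ∀ (V : Finset (Fin p)) (v : Fin r → ℤ) (c : Fin r → ℂ), (∀ i, c i ≠ 0) →
    (∀ g : (Fin r → ℤ) →₀ ℂ, ev x g = 0 → ev c (ini v g) = 0) →
      (∀ j ∈ V, ev c (ini v (h j)) = 0) →
        LinearIndependent ℂ (Sum.elim (fun l => gr c (ini v (f l))) fun j : V => gr c (ini v (h j)))

/-- The function `A` on the integral vectors is a weight: on the nonzero vectors it is at least `0`,
at most `1`, with bounded denominators, `A (v + w) ≥ A v + A w - 1` and `A (g v) ≤ g A v`. -/
structure IsWeight {r : ℕ} (A : (Fin r → ℤ) → ℚ) : Prop where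
  nonneg : ∀ v, v ≠ 0 → 0 ≤ A v
  le_one : ∀ v, A v ≤ 1
  denom : ∃ D : ℕ, 1 ≤ D ∧ ∀ v, ∃ z : ℤ, (D : ℚ) * A v = z
  add : ∀ v w, v ≠ 0 → w ≠ 0 → v + w ≠ 0 → A v + A w - 1 ≤ A (v + w)
  smul : ∀ (g : ℤ) v, 0 < g → v ≠ 0 → A (g • v) ≤ g * A v

/-- For each set `V` of at least two of the divisors `h j = 0`, the numbers
`1 - ∑ j ∈ V, (1 - c i j)` are nonnegative for all `i`, or nonpositive for all `i`. -/
def SameCell {s p : ℕ} (c : Fin s → Fin p → ℚ) : Prop :=
  ∀ V : Finset (Fin p), 2 ≤ V.card →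
    (∀ i, 0 ≤ 1 - ∑ j ∈ V, (1 - c i j)) ∨ ∀ i, 1 - ∑ j ∈ V, (1 - c i j) ≤ 0

theorem IsWeight.convex {r s : ℕ} {A : Fin s → (Fin r → ℤ) → ℚ} (hA : ∀ i, IsWeight (A i))
    {t : Fin s → ℚ} (ht : ∀ i, 0 ≤ t i) (ht1 : ∑ i, t i = 1) :
    IsWeight (fun v => ∑ i, t i * A i v) := by
  classical
  refine ⟨fun v hv => Finset.sum_nonneg fun i _ => mul_nonneg (ht i) ((hA i).nonneg v hv),
    fun v => ?_, ?_, fun v w hv hw hvw => ?_, fun g v hg hv => ?_⟩
  · rw [← ht1]
    exact Finset.sum_le_sum fun i _ => mul_le_of_le_one_right (ht i) ((hA i).le_one v)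
  · choose D hD hDz using fun i => (hA i).denom
    obtain ⟨m, hm, k, hk⟩ := exists_den t ht (fun _ => 1) fun _ => one_pos
    refine ⟨m * ∏ i, D i, Nat.mul_pos hm (Finset.prod_pos fun i _ => hD i), fun v => ?_⟩
    choose z hz using fun i => hDz i v
    refine ⟨∑ i, (k i : ℤ) * ((∏ j ∈ Finset.univ.erase i, (D j : ℤ)) * z i), ?_⟩
    push_cast
    rw [Finset.mul_sum]
    refine Finset.sum_congr rfl fun i _ => ?_
    rw [← Finset.mul_prod_erase Finset.univ (fun j => (D j : ℚ)) (Finset.mem_univ i), ← hz i]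
    have h1 := hk i
    rw [Nat.cast_one, mul_one] at h1
    rw [h1]
    ring
  · have h1 : ∑ i, t i * (A i v + A i w - 1) ≤ ∑ i, t i * A i (v + w) :=
      Finset.sum_le_sum fun i _ => mul_le_mul_of_nonneg_left ((hA i).add v w hv hw hvw) (ht i)
    have h2 : ∑ i, t i * (A i v + A i w - 1) = ∑ i, t i * A i v + ∑ i, t i * A i w - 1 := by
      simp only [mul_sub, mul_add, mul_one, Finset.sum_sub_distrib, Finset.sum_add_distrib, ht1]
    linarith
  · rw [Finset.mul_sum]
    refine Finset.sum_le_sum fun i _ => ?_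
    have h1 := mul_le_mul_of_nonneg_left ((hA i).smul g v hg hv) (ht i)
    linarith

theorem bdry_convex {r s p : ℕ} {A : Fin s → (Fin r → ℤ) → ℚ} {c : Fin s → Fin p → ℚ}
    (hc : ∀ i j, 0 ≤ c i j ∧ c i j ≤ 1) (hcell : SameCell c) {t : Fin s → ℚ}
    (ht : ∀ i, 0 ≤ t i) (ht1 : ∑ i, t i = 1) (x : Fin r → L) (h : Fin p → (Fin r → ℤ) →₀ ℂ)
    (P : Place ℂ L) : bdry (fun v => ∑ i, t i * A i v) (fun j => ∑ i, t i * c i j) x h P =
      ∑ i, t i * bdry (A i) (c i) x h P := by
  classical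
  unfold bdry
  by_cases h1 : (fun i => P.ord (x i)) ≠ 0
  · simp only [if_pos h1]
    have h2 : ∑ i, t i * (1 - A i fun i => P.ord (x i)) =
        1 - ∑ i, t i * A i fun i => P.ord (x i) := conv_sub ht1 _
    exact h2.symm
  · simp only [if_neg h1]
    by_cases h2 : ∃ j, 0 < P.ord (ev x (h j))
    · simp only [if_pos h2]
      obtain ⟨V, hV⟩ : ∃ V : Finset (Fin p),
          V = Finset.univ.filter (fun j => 0 < P.ord (ev x (h j))) := ⟨_, rfl⟩
      rw [← hV]
      have h3 : 1 - ∑ j ∈ V, (1 - ∑ i, t i * c i j) = ∑ i, t i * (1 - ∑ j ∈ V, (1 - c i j)) := by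
        have h4 : ∀ j, 1 - ∑ i, t i * c i j = ∑ i, t i * (1 - c i j) := fun j =>
          (conv_sub ht1 _).symm
        have h5 : ∑ j ∈ V, (1 - ∑ i, t i * c i j) = ∑ i, t i * ∑ j ∈ V, (1 - c i j) := by
          rw [Finset.sum_congr rfl fun j _ => h4 j, Finset.sum_comm]
          exact Finset.sum_congr rfl fun i _ => (Finset.mul_sum _ _ _).symm
        rw [h5]
        exact (conv_sub ht1 _).symm
      rw [h3]
      have h6 : (∀ i, 0 ≤ 1 - ∑ j ∈ V, (1 - c i j)) ∨ ∀ i, 1 - ∑ j ∈ V, (1 - c i j) ≤ 0 := by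
        rcases Nat.lt_or_ge V.card 2 with h7 | h7
        · left
          intro i
          have h8 : V.card = 0 ∨ V.card = 1 := by omega
          rcases h8 with h8 | h8
          · rw [Finset.card_eq_zero.1 h8]
            simp
          · obtain ⟨j, hj⟩ := Finset.card_eq_one.1 h8
            rw [hj, Finset.sum_singleton]
            linarith [(hc i j).1]
        · exact hcell V h7
      rcases h6 with h6 | h6
      · rw [max_eq_right (Finset.sum_nonneg fun i _ => mul_nonneg (ht i) (h6 i))]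
        exact Finset.sum_congr rfl fun i _ => by rw [max_eq_right (h6 i)]
      · rw [max_eq_left (Finset.sum_nonpos fun i _ => mul_nonpos_of_nonneg_of_nonpos (ht i) (h6 i))]
        rw [Finset.sum_eq_zero fun i _ => by rw [max_eq_left (h6 i), mul_zero]]
    · simp only [if_neg h2, mul_zero, Finset.sum_const_zero]

end

section

variable {K L : Type} [Field K] [Field L] [Algebra ℂ K] [Algebra ℂ L]

/-- `(X, Δ)` is a projective pair with function field `K` which is commensurable with the pair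
`(X₀, Δ₀)` with function field `L`, where `b` gives the multiplicities of `Δ₀`: the pull-backs of
`K_X + Δ` and of `K_{X₀} + Δ₀` to the common finite extension `M` of `K` and `L` coincide. That is, if
the place `P'` of `M` lies over the prime divisor `P` of `X` and over the place `Q` of `L`, with the
ramification indices `e` and `e'`, then `e (1 - Δ P) = e' (1 - b Q)`. Moreover, for all divisors `P`
over `X`, the log discrepancy of `(X, Δ)` along `P` is at least `e' (1 - b Q) / e`. -/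
structure IsCommensurable (M : Type) [Field M] [Algebra ℂ M] [Algebra K M] [Algebra L M]
    (b : Place ℂ L → ℚ) {N : ℕ} (y : Fin (N + 1) → K) (n : ℕ) (Δ : Place ℂ K → ℚ) : Prop where
  normal : NormalModel y
  effective : Effective y Δ
  mult : ∀ P, IsPrimeDivisor y P → ∀ (P' : Place ℂ M) (Q : Place ℂ L) (e e' : ℕ),
    LiesOn P' P e → LiesOn P' Q e' → (e : ℚ) * (1 - Δ P) = e' * (1 - b Q)
  disc : ∀ P, Divisorial n P → ∀ (P' : Place ℂ M) (Q : Place ℂ L) (e e' : ℕ),
    LiesOn P' P e → LiesOn P' Q e' → LogDisc y n Δ P (e' * (1 - b Q) / e)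

theorem effective_convex {N : ℕ} {y : Fin (N + 1) → K} {s : ℕ} {Δ : Fin s → Place ℂ K → ℚ}
    (h : ∀ i, Effective y (Δ i)) {t : Fin s → ℚ} (ht : ∀ i, 0 ≤ t i) :
    Effective y (fun P => ∑ i, t i * Δ i P) := by
  refine ⟨fun P hP => Finset.sum_nonneg fun i _ => mul_nonneg (ht i) ((h i).1 P hP), ?_⟩
  refine (Set.finite_iUnion fun i => (h i).2).subset ?_
  rintro P ⟨hP, h0⟩
  obtain ⟨i, -, hi⟩ := Finset.exists_ne_zero_of_sum_ne_zero h0
  exact Set.mem_iUnion.2 ⟨i, hP, right_ne_zero_of_mul hi⟩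

theorem IsCommensurable.convex {M : Type} [Field M] [Algebra ℂ M] [Algebra K M] [Algebra L M]
    {N n s : ℕ} (hs : Algebra.trdeg ℂ K = (n : ℕ)) {b : Fin s → Place ℂ L → ℚ}
    {y : Fin (N + 1) → K} {Δ : Fin s → Place ℂ K → ℚ}
    (h : ∀ i, IsCommensurable M (b i) y n (Δ i)) {t : Fin s → ℚ} (ht : ∀ i, 0 ≤ t i)
    (ht1 : ∑ i, t i = 1) :
    IsCommensurable M (fun Q => ∑ i, t i * b i Q) y n (fun P => ∑ i, t i * Δ i P) := by
  have hy : NormalModel y := by
    rcases Nat.eq_zero_or_pos s with rfl | h0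
    · simp at ht1
    · exact (h ⟨0, h0⟩).normal
  have h1 : ∀ a : Fin s → ℚ, 1 - ∑ i, t i * a i = ∑ i, t i * (1 - a i) := fun a =>
    (conv_sub ht1 _).symm
  refine ⟨hy, effective_convex (fun i => (h i).effective) ht, fun P hP P' Q e e' hPe hQe => ?_,
    fun P hP P' Q e e' hPe hQe => ?_⟩
  · rw [h1, h1, Finset.mul_sum, Finset.mul_sum]
    refine Finset.sum_congr rfl fun i _ => ?_
    have := (h i).mult P hP P' Q e e' hPe hQe
    linear_combination t i * this
  · have h2 := logDisc_convex hs hy hP (fun i => (h i).disc P hP P' Q e e' hPe hQe) ht ht1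
    have h3 : ∑ i, t i * (e' * (1 - b i Q) / e) = e' * (1 - ∑ i, t i * b i Q) / e := by
      rw [h1, Finset.mul_sum, Finset.sum_div]
      exact Finset.sum_congr rfl fun i _ => by ring
    rw [h3] at h2
    exact h2

/-- the rational pairs -/
theorem cdata {n q p : ℕ} (hn : 1 ≤ n) {M : Type} [Field M] [Algebra ℂ M] [Algebra K M]
    [Algebra L M] [IsScalarTower ℂ K M] [IsScalarTower ℂ L M] [FiniteDimensional K M]
    [FiniteDimensional L M] {x : Fin (n + q) → L}
    {f : Fin q → (Fin (n + q) → ℤ) →₀ ℂ} {h : Fin p → (Fin (n + q) → ℤ) →₀ ℂ}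
    (hx : IsGenericPoint n f h x) (hfh : Nondegenerate f h x) {A : (Fin (n + q) → ℤ) → ℚ}
    (hA : IsWeight A) {c : Fin p → ℚ}
    (hc : ∀ j, 0 ≤ c j ∧ c j ≤ 1) {N : ℕ} {y : Fin (N + 1) → K} {Δ : Place ℂ K → ℚ}
    (hy : IsCommensurable M (bdry A c x h) y n Δ) :
    Algebra.trdeg ℂ K = (n : ℕ) ∧ CData y n Δ := by
  obtain ⟨htr, β, h1, h2, h3⟩ := (R885.N.qfinalY (M := M) hn hx.2.2.2.2 hx.1 hx.2.2.2.1 hx.2.1
    hx.2.2.1 hfh ⟨hA.nonneg, hA.le_one, hA.denom, hA.add, hA.smul⟩ hc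
    ⟨hy.normal, hy.effective, hy.mult, hy.disc⟩).1
  exact ⟨htr, β, h1, h2, h3⟩

end

section

variable {K : Type} [Field K] [Algebra ℂ K] {N : ℕ}

/-- `(X, B)` is a projective pair with a real boundary `B`, commensurable with a nondegenerate pair
`(X₀, Δ₀)` with real multiplicities: `X₀` is a component of dimension `n` of the set of the zeros of
`q` Laurent polynomials `f l` in the torus of dimension `n + q`, and `B = ∑ i, t i * Δ i` with real
`t i ≥ 0`, `∑ i, t i = 1`, where the pairs `(X, Δ i)` are commensurable, by the same finite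
correspondence, with `X₀` and the boundary with the multiplicities `bdry (A i) (c i) x h`, for weights
`A i` and coefficients `c i j` in `[0, 1]` of the divisors `h j = 0` which lie in one cell. -/
def IsRealNondegeneratePair (y : Fin (N + 1) → K) (n : ℕ) (B : Place ℂ K → ℝ) : Prop :=
  ∃ (q p s : ℕ) (f : Fin q → (Fin (n + q) → ℤ) →₀ ℂ) (h : Fin p → (Fin (n + q) → ℤ) →₀ ℂ)
    (L M : Type) (_ : Field L) (_ : Field M) (_ : Algebra ℂ L) (_ : Algebra ℂ M)
    (_ : Algebra K M) (_ : Algebra L M) (_ : IsScalarTower ℂ K M) (_ : IsScalarTower ℂ L M)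
    (x : Fin (n + q) → L) (A : Fin s → (Fin (n + q) → ℤ) → ℚ) (c : Fin s → Fin p → ℚ)
    (Δ : Fin s → Place ℂ K → ℚ) (t : Fin s → ℝ),
    FiniteDimensional K M ∧ FiniteDimensional L M ∧ IsGenericPoint n f h x ∧
      Nondegenerate f h x ∧ (∀ i, IsWeight (A i)) ∧ (∀ i j, 0 ≤ c i j ∧ c i j ≤ 1) ∧
      SameCell c ∧ (∀ i, IsCommensurable M (bdry (A i) (c i) x h) y n (Δ i)) ∧
      (∀ i, 0 ≤ t i) ∧ ∑ i, t i = 1 ∧ ∀ P, IsPrimeDivisor y P → B P = ∑ i, t i * Δ i P

/-- **The theorem.** -/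
theorem final {n : ℕ} (hn : 1 ≤ n) {y : Fin (N + 1) → K} {B : Place ℂ K → ℝ}
    (hB : IsRealNondegeneratePair y n B) (heff : ∃ E, EffR y E ∧ RLin y n B E) :
    ∃ d : ℕ, d ≤ n ∧ ∀ E, EffR y E → RLin y n B E → iitakaDim y E = (d : WithBot ℕ) ∧
      ∀ A, EffR y A → numDim y E A = (d : EReal) := by
  obtain ⟨q, p, s, f, h, L, M, i1, i2, i3, i4, i5, i6, i7, i8, x, A, c, Δ, t, h1, h2, hx, hfh, hA,
    hc, hcell, hy, ht, ht1, hBt⟩ := hB
  have hs : 0 < s := by
    rcases Nat.eq_zero_or_pos s with rfl | h0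
    · simp at ht1
    · exact h0
  have htr := (cdata (M := M) hn hx hfh (hA ⟨0, hs⟩) (hc ⟨0, hs⟩) (hy ⟨0, hs⟩)).1
  have key : ∀ E, EffR y E → RLin y n B E → ∃ d : ℕ, d ≤ n ∧ Growth y E d := by
    intro E hE hBE
    refine mainR htr (hy ⟨0, hs⟩).normal (Δ := Δ) (fun c' hc' hc1' => ?_) ht ht1 hBt hE hBE
    refine (cdata (M := M) hn hx hfh (A := fun v => ∑ i, c' i * A i v)
      (IsWeight.convex hA hc' hc1') (c := fun j => ∑ i, c' i * c i j) (fun j => ⟨?_, ?_⟩) ?_).2
    · exact Finset.sum_nonneg fun i _ => mul_nonneg (hc' i) (hc i j).1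
    · rw [← hc1']
      exact Finset.sum_le_sum fun i _ => mul_le_of_le_one_right (hc' i) (hc i j).2
    · have h3 : bdry (fun v => ∑ i, c' i * A i v) (fun j => ∑ i, c' i * c i j) x h =
          fun P => ∑ i, c' i * bdry (A i) (c i) x h P := by
        funext P
        exact bdry_convex hc hcell hc' hc1' x h P
      rw [h3]
      exact IsCommensurable.convex htr hy hc' hc1'
  obtain ⟨E₀, hE₀, hBE₀⟩ := heff
  obtain ⟨d, hdn, hd⟩ := key E₀ hE₀ hBE₀
  refine ⟨d, hdn, fun E hE hBE => ?_⟩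
  obtain ⟨d', -, hd'⟩ := key E hE hBE
  obtain ⟨q1, ψ, r, hψ, hr⟩ := hBE.diff htr hBE₀
  obtain ⟨q2, ψ', r', hψ', hr'⟩ := hBE₀.diff htr hBE
  have h3 := hd'.le (hy ⟨0, hs⟩).normal hd hψ hr
  have h4 := hd.le (hy ⟨0, hs⟩).normal hd' hψ' hr'
  have h5 : d' = d := le_antisymm h3 h4
  rw [h5] at hd'
  exact hd'.dims

end

end Pool.Agent.T2H07
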