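import Pool.Agent.T2H07.DynDefs
import Pool.Agent.T2H06.DYR.Defs
import Pool.Agent.R887.DefsNefP

/-!
Definition: dominant rational self-maps of a pair which do not enlarge the log canonical class.
-/

set_option autoImplicit false

open FF Pool.Agent.W602.GT Pool.Agent.Y172 Pool.Agent.R887

namespace Pool.Agent.T2H07.Dyr

section

variable {K : Type} [Field K] [Algebra ℂ K] {N : ℕ}

/-- The dominant rational self-map `f` of `X`, `n` being the dimension of `X` and `φ = f^*`,
satisfies `f^* (K_X + Δ) ≤ K_X + Δ` up to `ℚ`-linear equivalence: there are `r ≥ 1` and a rational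
function `h ≠ 0` such that for every prime divisor `P` of `X`, with the image `Q = f (P)`, a divisor
over `X`, and the ramification index `e`, the product of `e` and of the log discrepancy of `(X, Δ)`
along `Q` is at least `1 - Δ P - (1 / r) ord_P h`. -/
def PullBackSelfLe (y : Fin (N + 1) → K) (n : ℕ) (Δ : Place ℂ K → ℚ) (φ : K →ₐ[ℂ] K) : Prop :=
  ∃ (r : ℕ) (h : K), 0 < r ∧ h ≠ 0 ∧ ∀ P : Place ℂ K, IsPrimeDivisor y P →
    ∀ (Q : Place ℂ K) (e : ℕ), LiesOver φ P Q e →
      ∃ α : ℚ, LogDisc y n Δ Q α ∧ 1 - Δ P - P.ord h / r ≤ e * α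

end

end Pool.Agent.T2H07.Dyr
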