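import Pool.Agent.T2H07.DynA
import Pool.Agent.T2H06.DYN.Main
import Pool.Agent.R887.Exc

/-!
The family of linear systems of a log canonical pair with a birational self-map.
-/

set_option autoImplicit false
set_option linter.overlappingInstances false
set_option linter.unusedSectionVars false
set_option linter.unusedVariables false

open FF Module MvPolynomial Filter Topology Pool.Agent.W602.GT Pool.Agent.W603.LV Pool.Agent.W619.PQ
open Pool.Agent.Y172 Pool.Agent.Y191 Pool.Agent.R887 Pool.Agent.T2H06.DYN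

namespace Pool.Agent.T2H07.Dyn

section

variable {K : Type} [Field K] [Algebra ℂ K] {N n : ℕ} {y : Fin (N + 1) → K}

theorem WP_mono {r m b b' : ℕ} {Δ A : Place ℂ K → ℚ} (hA : Effective y A)
    {E : Fin n → Derivation ℂ K K} (h : b ≤ b') : WP y n r Δ A E m b ≤ WP y n r Δ A E m b' := by
  rintro f ⟨ω, hω, rfl⟩
  refine ⟨ω, ⟨hω.1, fun P hP D hD => ?_⟩, rfl⟩
  rcases hω.2 P hP D hD with h1 | h1
  · exact Or.inl h1
  right
  refine le_trans ?_ h1
  have e : ∀ c : ℕ, ((r * m) • Δ + c • A) P = ((r * m) • Δ) P + c * A P := fun c => by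
    rw [Pi.add_apply, Pi.smul_apply c, nsmul_eq_mul c (A P)]
  rw [e, e]
  have h2 : (b : ℚ) ≤ b' := by exact_mod_cast h
  have := mul_le_mul_of_nonneg_right h2 (hA.1 P hP)
  linarith

theorem WP_fg (hy : NormalModel y) (hn : Algebra.trdeg ℂ K = n) {Δ A : Place ℂ K → ℚ}
    (hΔ : Effective y Δ) (hA : Effective y A) (E : Fin n → Derivation ℂ K K) {r m : ℕ}
    (hr : 0 < r) (hm : 1 ≤ m) (b : ℕ) : (WP y n r Δ A E m b).FG := by
  obtain ⟨C, hC⟩ := sec_growth hy hn hΔ (effective_nsmul hA b) E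
  refine fg_of_bound (R := C * (r * m) ^ n) fun k f hf hfV => ?_
  exact hC (r * m) (Nat.mul_pos hr hm) k f hf hfV

/-- **Sections are dominated by hyperplane sections.** -/
theorem exists_linP (hy : NormalModel y) (hn : Algebra.trdeg ℂ K = n) (hn0 : 0 < n)
    {Δ A : Place ℂ K → ℚ} (hΔ : Effective y Δ) (hLC : LogCanonical y n Δ) (hA : Effective y A)
    {x : Fin n → K} {E : Fin n → Derivation ℂ K K} (hx : IsTranscendenceBasis ℂ x)
    (hE : ∀ i j, E i (x j) = if i = j then 1 else 0) (hfr : IsFrame E) {r : ℕ} (hr : 0 < r) :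
    ∃ M β : ℕ, ∀ m b : ℕ, 1 ≤ m → ∃ h : K,
      Dom n (WP y n r Δ A E m b) (VH y) 1 ((m + 1) * M + b * β) h := by
  classical
  obtain ⟨j, hj⟩ := hy.ne
  obtain ⟨M, hM⟩ := source_bound (y' := y) hy hn hn0 hΔ.2 hj
  have hmap : MapOut y n Δ y {P | IsPrimeDivisor y P ∧ Δ P ≠ 0} := by
    intro Q hQ hQS P e ho
    have he : (1 : ℚ) ≤ e := by
      obtain ⟨π, hπ0, hπ⟩ := Q.surj
      have h1 := ho.2 π
      rcases Nat.eq_zero_or_pos e with h2 | h2
      · rw [h2] at h1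
        simp only [Algebra.algebraMap_self, RingHom.id_apply] at h1
        rw [hπ] at h1
        simp at h1
      · exact_mod_cast h2
    have h1 : ∀ f, Q.ord f = e * P.ord f := fun f => ho.2 f
    have h2 : (1 : ℤ) ≤ e := by exact_mod_cast he
    have h3 : (e : ℤ) = 1 := by
      obtain ⟨π, hπ0, hπ⟩ := Q.surj
      have h4 := h1 π
      rw [hπ] at h4
      exact Int.eq_one_of_mul_eq_one_right (by omega) h4.symm
    have h4 : P = Q := by
      apply Place.ext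
      funext f
      rw [h1 f, h3, one_mul]
    have h5 : Δ Q = 0 := by
      by_contra h0
      exact hQS ⟨hQ, h0⟩
    refine ⟨1, Or.inl ⟨by rw [h4]; exact hQ, ?_⟩, by rw [mul_one]; exact he⟩
    rw [h4, h5, sub_zero]
  obtain ⟨β, hβ⟩ := hM (A := A) hy hn hA hLC hmap hx hE hfr
  refine ⟨r * M, β, fun m b hm => ?_⟩
  obtain ⟨F, hF1, hF2⟩ := hβ (r * m) b (Nat.mul_pos hr hm)
  by_cases hex : ∃ ω₀, IsSection y n (r * m) ((r * m) • Δ + b • A) ω₀ ∧ ω₀ E ≠ 0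
  · obtain ⟨ω₀, hω₀, hω₀E⟩ := hex
    obtain ⟨c, hc⟩ : ∃ c, c = F ω₀ / ω₀ E := ⟨_, rfl⟩
    have hF₀ := (hF1 ω₀ hω₀ hω₀E).1
    have hc0 : c ≠ 0 := by rw [hc]; exact div_ne_zero hF₀ hω₀E
    obtain ⟨B, hB⟩ : ∃ B, B = (m + 1) * (r * M) + b * β := ⟨_, rfl⟩
    obtain ⟨B', hB'⟩ : ∃ B', B' = (r * m + 1) * M + b * β := ⟨_, rfl⟩
    have hBB : B' ≤ B := by
      rw [hB, hB']
      have : (r * m + 1) * M ≤ (m + 1) * (r * M) := by
        have h1 : r * m + 1 ≤ (m + 1) * r := by nlinarith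
        calc (r * m + 1) * M ≤ (m + 1) * r * M := Nat.mul_le_mul_right _ h1
          _ = (m + 1) * (r * M) := by ring
      omega
    rw [← hB]
    refine ⟨(y j ^ B * c)⁻¹, inv_ne_zero (mul_ne_zero (pow_ne_zero _ hj) hc0),
      fun P hP f hf hf0 => ?_⟩
    obtain ⟨ω, hω, rfl⟩ := mem_WP.1 hf
    have h1 := (hF1 ω hω hf0).2
    have h2 := hF2 ω₀ ω hω₀ hω hω₀E hf0
    simp only [Algebra.algebraMap_self, RingHom.id_apply] at h2
    have h3 : F ω = c * ω E := by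
      rw [hc]
      field_simp at h2 ⊢
      rw [← h2]
    rw [← hB', h3] at h1
    obtain ⟨μ, hμ⟩ := exists_isMin (k := ℂ) (S := aff y j) (Set.finite_range _)
      ⟨1, ⟨j, div_self hj⟩, one_ne_zero⟩
    have h6 := hμ.ge h1
    have h7 := hμ.nonpos ⟨j, div_self hj⟩ P
    have h8 : Bnd ℂ (aff y j) B (c * ω E) := by
      refine hμ.bnd (mul_ne_zero hc0 hf0) (fun P => (h6 P).mono ?_)
      have h7 := hμ.nonpos ⟨j, div_self hj⟩ P
      have h9 : (B' : ℤ) ≤ B := by exact_mod_cast hBB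
      exact mul_le_mul_of_nonpos_right h9 h7
    obtain ⟨s, ⟨k, rfl⟩, hs0, hle⟩ := h8 P
    have hyk : y k ≠ 0 := by
      intro h0
      apply hs0
      change y k / y j = 0
      rw [h0, zero_div]
    refine ⟨y k, Submodule.subset_span ⟨k, rfl⟩, hyk, ?_⟩
    rw [P.ord_inv, P.ord_mul (pow_ne_zero _ hj) hc0, P.ord_pow]
    change (B : ℤ) * P.ord (y k / y j) ≤ _ at hle
    rw [P.ord_div hyk hj, P.ord_mul hc0 hf0] at hle
    push_cast
    linarith
  · refine ⟨1, one_ne_zero, fun P hP f hf hf0 => ?_⟩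
    obtain ⟨ω, hω, rfl⟩ := mem_WP.1 hf
    exact absurd ⟨ω, hω, hf0⟩ hex

/-- the family of the linear systems -/
theorem exists_famP (hy : NormalModel y) (hn : Algebra.trdeg ℂ K = n) (hn0 : 0 < n)
    {Δ A : Place ℂ K → ℚ} (hΔ : Effective y Δ) (hLC : LogCanonical y n Δ)
    {x : Fin n → K} {E : Fin n → Derivation ℂ K K}
    (hx : IsTranscendenceBasis ℂ x) (hE : ∀ i j, E i (x j) = if i = j then 1 else 0)
    (hfr : IsFrame E) {i : Fin (N + 1)} (hi : y i ≠ 0) (hA : Effective y A)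
    (hAP : ∀ P l, IsPrimeDivisor y P → Centred y l P → A P = P.ord (y i / y l))
    {g : K ≃ₐ[ℂ] K} (hg : PullBackSelfLe y n Δ g) (hg' : PullBackSelfLe y n Δ g.symm) :
    ∃ r M β : ℕ, 0 < r ∧ Fam n g (VH y) (WP y n r Δ A E) M β := by
  obtain ⟨r₁, h₁, hr₁, hh₁, hle₁⟩ := hg
  obtain ⟨r₂, h₂, hr₂, hh₂, hle₂⟩ := hg'
  have hr : 0 < r₁ * r₂ := Nat.mul_pos hr₁ hr₂
  have hr₁q : (r₁ : ℚ) ≠ 0 := by exact_mod_cast hr₁.ne'
  have hr₂q : (r₂ : ℚ) ≠ 0 := by exact_mod_cast hr₂.ne'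
  have ht₁ : Tr (WP y n (r₁ * r₂) Δ A E) g := by
    refine tr_of_le hy hn hx hE hfr hi hAP g hr (pow_ne_zero r₂ hh₁) fun P Q hP hPQ => ?_
    have h := hle₁ P Q hP hPQ
    have e : (P.ord (h₁ ^ r₂) : ℚ) / ((r₁ * r₂ : ℕ) : ℚ) = P.ord h₁ / r₁ := by
      rw [P.ord_pow]
      push_cast
      field_simp
    rw [e]
    exact h
  have ht₂ : Tr (WP y n (r₁ * r₂) Δ A E) g⁻¹ := by
    refine tr_of_le hy hn hx hE hfr hi hAP g⁻¹ hr (pow_ne_zero r₁ hh₂) fun P Q hP hPQ => ?_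
    have h := hle₂ P Q hP hPQ
    have e : (P.ord (h₂ ^ r₁) : ℚ) / ((r₁ * r₂ : ℕ) : ℚ) = P.ord h₂ / r₂ := by
      rw [P.ord_pow]
      push_cast
      field_simp
    rw [e]
    exact h
  obtain ⟨M, β, hM⟩ := exists_linP hy hn hn0 hΔ hLC hA hx hE hfr hr
  refine ⟨r₁ * r₂, M, β, hr, ⟨hn, VH_fg, fun m b hm => WP_fg hy hn hΔ hA E hr hm b,
    fun m b b' hb => WP_mono hA hb, fun m b hm => hM m b hm, fun t => (ht₁.zpow ht₂ t).dom,
    fun t => exists_hyp_dom hy hi (g ^ t)⟩⟩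

/-- large intersection numbers, if the numerical dimension is at least `j` -/
theorem not_numDimLtP (hy : NormalModel y) (hn : Algebra.trdeg ℂ K = n) (hn0 : 0 < n)
    {E : Fin n → Derivation ℂ K K} {Δ : Place ℂ K → ℚ}
    (hfr : IsFrame E) {i : Fin (N + 1)} (hi : y i ≠ 0) {A : Place ℂ K → ℚ} (hA : Effective y A)
    (hAP : ∀ P l, IsPrimeDivisor y P → Centred y l P → A P = P.ord (y i / y l))
    {g : K ≃ₐ[ℂ] K} {r M β : ℕ} (hr : 0 < r) (hF : Fam n g (VH y) (WP y n r Δ A E) M β) {j : ℕ}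
    (hj : j ≤ n) (h : ¬ NumDimLt y n Δ j) :
    ∃ ε : ℝ, 0 < ε ∧ ∀ k : ℕ, ∃ m ν : ℕ, 1 ≤ m ∧ ν * (k + 1) ≤ m ∧
      ε * (m : ℝ) ^ j ≤ NN g (VH y) (WP y n r Δ A E) j m ν (Multiset.replicate (n - j) 0) := by
  unfold NumDimLt at h
  push Not at h
  obtain ⟨A', hA', ε, hε, h⟩ := h
  obtain ⟨f, s, hf0, hfs⟩ := dominate' hy hA' hi hA hAP
  refine ⟨ε, hε, fun k => ?_⟩
  have hrR : (0 : ℝ) < r := by exact_mod_cast hr
  obtain ⟨m, b, hm, hb, u, hu, ω, E', hω, h0, hdeg⟩ :=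
    h (1 / ((r : ℝ) * (((s + 1 : ℕ) : ℝ) * ((k + 1 : ℕ) : ℝ)))) (by positivity) 1
  have hbs : r * b * s * (k + 1) ≤ m := by
    have h1 : (b : ℝ) * ((r : ℝ) * (((s + 1 : ℕ) : ℝ) * ((k + 1 : ℕ) : ℝ))) ≤ m := by
      have h2 : (0 : ℝ) < (r : ℝ) * (((s + 1 : ℕ) : ℝ) * ((k + 1 : ℕ) : ℝ)) := by positivity
      have h3 := mul_le_mul_of_nonneg_right hb h2.le
      have h4 : 1 / ((r : ℝ) * (((s + 1 : ℕ) : ℝ) * ((k + 1 : ℕ) : ℝ))) * m *
          ((r : ℝ) * (((s + 1 : ℕ) : ℝ) * ((k + 1 : ℕ) : ℝ))) = m := by field_simp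
      linarith
    have h2 : b * (r * ((s + 1) * (k + 1))) ≤ m := by exact_mod_cast h1
    refine le_trans ?_ h2
    calc r * b * s * (k + 1) = b * (r * (s * (k + 1))) := by ring
      _ ≤ b * (r * ((s + 1) * (k + 1))) := by gcongr; omega
  refine ⟨m, r * b * s, hm, hbs, hdeg.le.trans ?_⟩
  -- the sections, multiplied by powers of the first one
  have hsec : ∀ a, IsSection y n (r * m) ((r * m) • Δ + (r * b * s) • A)
      (fun D => f ^ (r * b) * (ω a D * ω 0 D ^ (r - 1))) := by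
    intro a
    have hr1 : r = (r - 1) + 1 := by omega
    refine ⟨fun M' D => ?_, fun P hP D hD => ?_⟩
    · simp only []
      rw [(hω a).1 M' D, (hω 0).1 M' D, mul_pow, ← pow_mul]
      have e : Matrix.det M' ^ (r * m) = Matrix.det M' ^ m * Matrix.det M' ^ (m * (r - 1)) := by
        rw [← pow_add]
        congr 1
        conv_lhs => rw [hr1]
        ring
      rw [e]
      ring
    · by_cases h3 : ω a D = 0
      · left
        change f ^ (r * b) * (ω a D * ω 0 D ^ (r - 1)) = 0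
        rw [h3, zero_mul, mul_zero]
      by_cases h4 : ω 0 D = 0 ∧ r - 1 ≠ 0
      · left
        change f ^ (r * b) * (ω a D * ω 0 D ^ (r - 1)) = 0
        rw [h4.1, zero_pow h4.2, mul_zero, mul_zero]
      have h5 : ω 0 D ^ (r - 1) ≠ 0 := by
        by_cases h6 : ω 0 D = 0
        · have h7 : r - 1 = 0 := by
            by_contra h8
            exact h4 ⟨h6, h8⟩
          rw [h7, pow_zero]
          exact one_ne_zero
        · exact pow_ne_zero _ h6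
      right
      change _ ≤ (P.ord (f ^ (r * b) * (ω a D * ω 0 D ^ (r - 1))) : ℚ)
      rw [P.ord_mul (pow_ne_zero _ hf0) (mul_ne_zero h3 h5), P.ord_mul h3 h5, P.ord_pow,
        P.ord_pow]
      have h6 := ((hω a).2 P hP D hD).resolve_left h3
      have h7 : ((r - 1 : ℕ) : ℚ) * (-((m • Δ + b • A') P)) ≤
          ((r - 1 : ℕ) : ℚ) * P.ord (ω 0 D) := by
        by_cases h8 : ω 0 D = 0
        · have h9 : r - 1 = 0 := by
            by_contra h10
            exact h4 ⟨h8, h10⟩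
          rw [h9]
          simp
        · exact mul_le_mul_of_nonneg_left (((hω 0).2 P hP D hD).resolve_left h8)
            (Nat.cast_nonneg _)
      have h8 := mul_le_mul_of_nonneg_left (hfs P hP) (show (0 : ℚ) ≤ r * b by positivity)
      have h9 : ((r - 1 : ℕ) : ℚ) = r - 1 := by
        have : r = (r - 1) + 1 := hr1
        have h10 : (r : ℚ) = ((r - 1 : ℕ) : ℚ) + 1 := by exact_mod_cast this
        linarith
      rw [Pi.add_apply, Pi.smul_apply, Pi.smul_apply, nsmul_eq_mul, nsmul_eq_mul] at h6 h7 ⊢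
      rw [h9] at h7
      push_cast
      rw [h9]
      nlinarith
  have hne : f ^ (r * b) * (ω 0 E' * ω 0 E' ^ (r - 1)) ≠ 0 :=
    mul_ne_zero (pow_ne_zero _ hf0) (mul_ne_zero h0 (pow_ne_zero _ h0))
  have hrat : ∀ a : Fin j, f ^ (r * b) * (ω 0 E * ω 0 E ^ (r - 1)) ≠ 0 ∧
      ω a.succ E' / ω 0 E' = (f ^ (r * b) * (ω a.succ E * ω 0 E ^ (r - 1))) /
        (f ^ (r * b) * (ω 0 E * ω 0 E ^ (r - 1))) := by
    intro a
    obtain ⟨h1, h2⟩ := ratio_frame hfr (hsec 0).1 (hsec a.succ).1 hne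
    refine ⟨h1, ?_⟩
    have h3 : f ^ (r * b) ≠ 0 := pow_ne_zero _ hf0
    have h4 : ω 0 E' ^ (r - 1) ≠ 0 := pow_ne_zero _ h0
    refine Eq.trans ?_ h2
    change ω a.succ E' / ω 0 E' = (f ^ (r * b) * (ω a.succ E' * ω 0 E' ^ (r - 1))) /
        (f ^ (r * b) * (ω 0 E' * ω 0 E' ^ (r - 1)))
    rw [mul_div_mul_left _ _ h3, mul_div_mul_right _ _ h4]
  have hdg := degree_le_NN hn hF (m := m) (b := r * b * s) hm hj hu
    (v := fun a : Fin j => ω a.succ E' / ω 0 E') (by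
      intro a
      obtain ⟨h1, h2⟩ := hrat a
      refine ⟨_, mem_WP.2 ⟨_, hsec a.succ, rfl⟩, _, mem_WP.2 ⟨_, hsec 0, rfl⟩, h1, ?_⟩
      exact h2)
  exact_mod_cast hdg

/-- **The numerical dimension of `K_X + Δ` and the dynamical degrees of a birational self-map.** -/
theorem dynP (hy : NormalModel y) (hn : Algebra.trdeg ℂ K = n) (hn0 : 0 < n)
    {Δ : Place ℂ K → ℚ} (hΔ : Effective y Δ) (hLC : LogCanonical y n Δ) (g : K ≃ₐ[ℂ] K)
    (hg : PullBackSelfLe y n Δ g) (hg' : PullBackSelfLe y n Δ g.symm) :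
    ∃ δ : ℕ → ℝ, (∀ p ≤ n, 1 ≤ δ p ∧ DynDegree y n g p (δ p)) ∧ δ 0 = 1 ∧ δ n = 1 ∧
      ∀ j ≤ n, ¬ NumDimLt y n Δ j → ∃ q, q + j ≤ n ∧ ∀ i ≤ j, ∀ p ≤ n, δ p ≤ δ (q + i) := by
  classical
  obtain ⟨i, hi⟩ := hy.ne
  obtain ⟨A, hA, hAP⟩ := exists_hyp hy hi
  obtain ⟨x, E, hx, hE⟩ := exists_crd hn (k := ℂ) (K := K)
  have hfr : IsFrame E := fun F => ⟨fun j => F (x j),
    (Pool.Agent.W73.PG.PULL.expand x hx E hE F).symm⟩
  obtain ⟨r, M, β, hr, hF⟩ := exists_famP hy hn hn0 hΔ hLC hx hE hfr hi hA hAP hg hg'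
  obtain ⟨d, hd, -⟩ := fam_plateau hF (Nat.zero_le n) (ε := 1) one_pos (μ := fun _ => 1)
    (ν := fun _ => 0) (fun _ => le_rfl) (fun k => by rw [zero_mul]; exact Nat.zero_le _)
    (fun k => exists_pos hy hn hF le_rfl 0)
  have hpos : ∀ p ≤ n, ∀ m : ℕ, 0 < MM ((tri m 0 0 p 0 (n - p)).map (AA g (VH y))) := by
    intro p hp m
    exact MM_pos hy hn hF (by rw [tri_card]; omega)
  have hconst : ∀ (c : ℝ) (x : ℝ), Tendsto (fun m : ℕ => c / (m : ℝ)) atTop (𝓝 x) → x = 0 :=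
    fun c x h => tendsto_nhds_unique h (tendsto_const_div_atTop_nhds_zero_nat c)
  refine ⟨fun p => Real.exp (d p), fun p hp => ⟨?_, _, fun m => isGreatest_iter hn hF hp m
    (hpos p hp m), tendsto_root (hpos p hp) (hd p hp)⟩, ?_, ?_, fun j hj hnd => ?_⟩
  · refine Real.one_le_exp (ge_of_tendsto' (hd p hp) fun m => ?_)
    have h1 : (1 : ℝ) ≤ MM ((tri m 0 0 p 0 (n - p)).map (AA g (VH y))) := by
      exact_mod_cast hpos p hp m
    exact div_nonneg (Real.log_nonneg h1) (Nat.cast_nonneg _)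
  · have h1 : d 0 = 0 := by
      refine hconst (Real.log (MM ((tri 0 0 0 0 0 (n - 0)).map (AA g (VH y))))) _
        ((hd 0 (Nat.zero_le n)).congr fun m => ?_)
      congr 5
    simp only [h1, Real.exp_zero]
  · have h1 : d n = 0 := by
      refine hconst (Real.log (MM ((tri 0 0 0 n 0 (n - n)).map (AA g (VH y))))) _
        ((hd n le_rfl).congr fun m => ?_)
      have h2 := MM_map (g ^ m) (L := (tri 0 0 0 n 0 (n - n)).map (AA g (VH y))) (by
        rw [Multiset.card_map, tri_card, hn]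
        congr 1
        omega) (map_AA_fg hF _)
      have h3 : ((tri 0 0 0 n 0 (n - n)).map (AA g (VH y))).map (im (g ^ m)) =
          (tri m 0 0 n 0 (n - n)).map (AA g (VH y)) := by
        unfold T2H06.DYN.tri
        simp only [Nat.sub_self, Multiset.replicate_zero, add_zero, Multiset.map_replicate]
        rw [AA_zero]
        unfold AA
        rw [zpow_natCast]
      rw [← h3, h2]
    simp only [h1, Real.exp_zero]
  · obtain ⟨ε, hε, h⟩ := not_numDimLtP hy hn hn0 hfr hi hA hAP hr hF hj hnd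
    choose μ ν hμ hν hle using h
    obtain ⟨d', hd', q, hq, hmax⟩ := fam_plateau hF hj hε hμ hν hle
    have e : ∀ p ≤ n, d' p = d p := fun p hp => tendsto_nhds_unique (hd' p hp) (hd p hp)
    refine ⟨q, hq, fun i hi p hp => Real.exp_le_exp.2 ?_⟩
    rw [← e p hp, ← e (q + i) (by omega)]
    exact hmax i hi p hp

/-- few maximal dynamical degrees: the Kodaira dimension is the numerical dimension -/
theorem dims_of_few (hy : NormalModel y) (hn : Algebra.trdeg ℂ K = n) {Δ : Place ℂ K → ℚ}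
    {δ : ℕ → ℝ}
    (h : ∀ j ≤ n, ¬ NumDimLt y n Δ j → ∃ q, q + j ≤ n ∧ ∀ i ≤ j, ∀ p ≤ n, δ p ≤ δ (q + i))
    {k : ℕ} (hk : k < n) (hkod : LogKodairaGe y n Δ k)
    (hfew : ¬ ∃ q, q + (k + 1) ≤ n ∧ ∀ i ≤ k + 1, ∀ p ≤ n, δ p ≤ δ (q + i)) :
    DimensionsEq y n Δ k := by
  have h1 : NumDimLt y n Δ (k + 1) := by
    by_contra h2
    exact hfew (h (k + 1) hk h2)
  have key : ∀ j ≤ n, NumDimLt y n Δ j → ¬ LogKodairaGe y n Δ j := by
    rintro j hj hnum ⟨m, hm, ω, E, hω, h0, hind⟩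
    exact kappa_lt hy hn hj hnum hm hω h0 hind
  exact ⟨⟨hkod, key (k + 1) hk h1⟩, h1, fun h2 => key k hk.le h2 hkod⟩

/-- a unique maximal dynamical degree: abundance -/
theorem abundance_of_unique (hy : NormalModel y) (hn : Algebra.trdeg ℂ K = n) (hn0 : 0 < n)
    {Δ : Place ℂ K → ℚ} (hΔ : Effective y Δ) {δ : ℕ → ℝ}
    (h : ∀ j ≤ n, ¬ NumDimLt y n Δ j → ∃ q, q + j ≤ n ∧ ∀ i ≤ j, ∀ p ≤ n, δ p ≤ δ (q + i))
    {m : ℕ} (hm : 1 ≤ m) {η : (Fin n → Derivation ℂ K K) → K} (hη : IsSection y n m (m • Δ) η)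
    (hη0 : η ≠ 0)
    (hfew : ¬ ∃ q, q + 1 ≤ n ∧ ∀ i ≤ 1, ∀ p ≤ n, δ p ≤ δ (q + i)) :
    kodairaDim y n Δ = ((0 : ℕ) : WithBot ℕ) ∧
      ∀ A, Effective y A → Integral y A → numericalDim y n Δ A = ((0 : ℕ) : EReal) := by
  refine abundance_zero hy hn hn0 hΔ ?_ hm hη hη0
  by_contra h2
  exact hfew (h 1 hn0 h2)

end

end Pool.Agent.T2H07.Dyn
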