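import Pool.Agent.T2H06.DYR.GeoT
import Pool.Agent.T2H07.DynB
import Pool.Agent.T2H07.DrDefs
import Pool.Agent.R887.GapC

/-!
The linear systems of the sections of `m (q r (K_X + Δ) + H)` and the pull back by dominant rational
self-maps.
-/

set_option autoImplicit false
set_option linter.overlappingInstances false
set_option linter.unusedSectionVars false
set_option linter.unusedVariables false

open FF MvPolynomial Pool.Agent.W602.GT Pool.Agent.W603.LV Pool.Agent.W619.PQ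
open Pool.Agent.Y172 Pool.Agent.Y191 Pool.Agent.R887 Filter Topology
open Pool.Agent.T2H06.DYN (MM MM_dom MM_dom_rep MM_four Dom VH VH_fg mem_VH pen_VH VS mem_VS VS_fg
  exists_lin sec_ord exists_ord_le exists_hyp_dom centred_of_through)
open Pool.Agent.T2H06.DYR
open Pool.Agent.T2H07.Dyn (sec_ordP WP mem_WP WP_fg WP_mono exists_linP not_numDimLtP Tr)

namespace Pool.Agent.T2H07.Dyr

section pull

variable {K K' : Type} [Field K] [Algebra ℂ K] [Field K'] [Algebra ℂ K'] {N N' n : ℕ}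
  {y : Fin (N + 1) → K} {y' : Fin (N' + 1) → K'}

/-- **The pull back of sections.** -/
theorem exists_pbP (hy : NormalModel y) (hy' : NormalModel y') (hn : Algebra.trdeg ℂ K = n)
    (hn' : Algebra.trdeg ℂ K' = n)
    {x : Fin n → K} {E : Fin n → Derivation ℂ K K} (hx : IsTranscendenceBasis ℂ x)
    (hE : ∀ i j, E i (x j) = if i = j then 1 else 0) (hfr : IsFrame E)
    {E' : Fin n → Derivation ℂ K' K'} (hfr' : IsFrame E') {i : Fin (N + 1)} {i' : Fin (N' + 1)}
    (hi : y i ≠ 0) {Δ A : Place ℂ K → ℚ}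
    (hAP : ∀ P l, IsPrimeDivisor y P → Centred y l P → A P = P.ord (y i / y l))
    {Δ' A' : Place ℂ K' → ℚ}
    (hAP' : ∀ P l, IsPrimeDivisor y' P → Centred y' l P → A' P = P.ord (y' i' / y' l))
    (φ : K →ₐ[ℂ] K') {r : ℕ} {h : K'} (hr : 0 < r) (hh : h ≠ 0)
    (hle : ∀ P : Place ℂ K', IsPrimeDivisor y' P → ∀ (Q : Place ℂ K) (e : ℕ),
      LiesOver φ P Q e → ∃ α : ℚ, LogDisc y n Δ Q α ∧ 1 - Δ' P - P.ord h / r ≤ e * α)
    {C : ℕ} {q : K'} (hq : q ≠ 0)
    (hCq : ∀ (P : Place ℂ K') (l : Fin (N + 1)) (l' : Fin (N' + 1)), y l ≠ 0 →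
      Centred y' l' P → P.ord (φ (y i / y l)) ≤ C * P.ord (y' i' / y' l') + P.ord q) :
    ∃ δ : K', δ ≠ 0 ∧ ∀ (m b : ℕ) (ω : (Fin n → Derivation ℂ K K) → K),
      IsSection y n (r * m) ((r * m) • Δ + b • A) ω →
        ∃ ω', IsSection y' n (r * m) ((r * m) • Δ' + (C * b) • A') ω' ∧
          ω' E' = q ^ b * h ^ m * (δ ^ (r * m) * φ (ω E)) := by
  have hess := hy.ess
  have hess' := hy'.ess
  let _ : Algebra K K' := φ.toRingHom.toAlgebra
  have hst : IsScalarTower ℂ K K' := IsScalarTower.of_algebraMap_eq fun c => (φ.commutes c).symm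
  have hfd : FiniteDimensional K K' := finite_map hn hn'
  have halg : Algebra.IsAlgebraic K K' := inferInstance
  have hmap : ∀ f : K, algebraMap K K' f = φ f := fun f => rfl
  have hrq : (0 : ℚ) < r := by exact_mod_cast hr
  have hqh : ∀ b m : ℕ, q ^ b * h ^ m ≠ 0 := fun b m =>
    mul_ne_zero (pow_ne_zero _ hq) (pow_ne_zero _ hh)
  refine ⟨(Matrix.of fun i j => E' i (algebraMap K K' (x j))).det, pull_ne hn hE hfr',
    fun m b ω hω => ⟨fun D => q ^ b * h ^ m * pull K' x E (r * m) ω D,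
      ⟨fun M D => ?_, fun P hP D hD => ?_⟩, rfl⟩⟩
  · simp only []
    rw [pull_pluri (K' := K') x E (r * m) ω M D]
    ring
  · obtain ⟨P₀, e, hov⟩ := exists_below (k := ℂ) (K := K) (L := K') P
    have hdP := hP.divisorial hy' hn'
    have hdP₀ := divisorial_down hov hdP
    obtain ⟨l, hl⟩ := exists_centred hy P₀
    obtain ⟨l', hl'⟩ := exists_centred hy' P
    obtain ⟨α, hα, hαe⟩ := hle P hP P₀ e ⟨hov.1, fun f => hov.2 f⟩
    have h1 := sec_ordP hy hn hx hE hfr hi hAP hω hα hl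
    obtain ⟨c, hc⟩ : ∃ c : ℤ, c = ⌈((r * m : ℕ) : ℚ) * (α - 1) - b * P₀.ord (y i / y l)⌉ :=
      ⟨_, rfl⟩
    have hc1 : ((r * m : ℕ) : ℚ) * (α - 1) - b * P₀.ord (y i / y l) ≤ c := by
      rw [hc]; exact Int.le_ceil _
    have h1' : OrdGe P₀ ω (c : ℚ) := by
      refine fun D hD => (h1 D hD).imp_right fun h => ?_
      rw [hc]
      exact_mod_cast Int.ceil_le.2 h
    have h2 := pull_ord (K' := K') hn hx hE hov hdP₀ hω.1 h1' hD
    rcases h2 with h2 | h2
    · left
      change q ^ b * h ^ m * pull K' x E (r * m) ω D = 0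
      rw [h2, mul_zero]
    by_cases h0 : pull K' x E (r * m) ω D = 0
    · left
      change q ^ b * h ^ m * pull K' x E (r * m) ω D = 0
      rw [h0, mul_zero]
    right
    change _ ≤ ((P.ord (q ^ b * h ^ m * pull K' x E (r * m) ω D) : ℤ) : ℚ)
    rw [P.ord_mul (hqh b m) h0, P.ord_mul (pow_ne_zero _ hq) (pow_ne_zero _ hh), P.ord_pow,
      P.ord_pow, Pi.add_apply, Pi.smul_apply, Pi.smul_apply, nsmul_eq_mul, nsmul_eq_mul,
      hAP' P l' hP hl']
    have h3 := hCq P l l' hl.1 hl'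
    have h4 : P.ord (φ (y i / y l)) = e * P₀.ord (y i / y l) := hov.2 _
    rw [h4] at h3
    have he : (1 : ℚ) ≤ e := by exact_mod_cast hov.1
    have h3' : (e : ℚ) * P₀.ord (y i / y l) ≤ C * P.ord (y' i' / y' l') + P.ord q := by
      exact_mod_cast h3
    have h2' : ((r * m : ℕ) : ℚ) * ((e : ℚ) - 1) + e * c ≤ P.ord (pull K' x E (r * m) ω D) := by
      exact_mod_cast h2
    have h5 := mul_le_mul_of_nonneg_left hc1 (show (0 : ℚ) ≤ e by linarith)
    have h6 := mul_le_mul_of_nonneg_left h3' (show (0 : ℚ) ≤ b from Nat.cast_nonneg b)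
    have h7 := mul_le_mul_of_nonneg_left hαe (show (0 : ℚ) ≤ ((r * m : ℕ) : ℚ) from
      Nat.cast_nonneg _)
    have h8 : ((r * m : ℕ) : ℚ) * (1 - Δ' P - P.ord h / r) =
        ((r * m : ℕ) : ℚ) - ((r * m : ℕ) : ℚ) * Δ' P - m * P.ord h := by
      push_cast
      field_simp
    rw [h8] at h7
    push_cast at h2' h5 h6 h7 ⊢
    nlinarith

end pull

end Pool.Agent.T2H07.Dyr
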