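import Pool.Agent.T2H07.DrA

/-!
The family of the linear systems of the sections of `m (q r (K_X + Δ) + H)`, if `K_X + Δ` is nef.
-/

set_option autoImplicit false
set_option linter.overlappingInstances false
set_option linter.unusedSectionVars false
set_option linter.unusedVariables false

open FF MvPolynomial Pool.Agent.W602.GT Pool.Agent.W603.LV Pool.Agent.W619.PQ
open Pool.Agent.Y172 Pool.Agent.Y191 Pool.Agent.R887 Filter Topology
open Pool.Agent.T2H06.DYN (MM MM_dom MM_dom_rep MM_four Dom VH VH_fg mem_VH pen_VH VS mem_VS VS_fg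
  exists_lin sec_ord exists_ord_le exists_hyp_dom centred_of_through)
open Pool.Agent.T2H06.DYR
open Pool.Agent.T2H07.Dyn (sec_ordP WP mem_WP WP_fg WP_mono exists_linP not_numDimLtP Tr)

namespace Pool.Agent.T2H07.Dyr

section

variable {K : Type} [Field K] [Algebra ℂ K] {N n : ℕ} {y : Fin (N + 1) → K}

theorem ordEq_pow {P : Place ℂ K} {ω : (Fin n → Derivation ℂ K K) → K} {z : ℚ}
    (h : OrdEq P ω z) (r : ℕ) : OrdEq P (fun D => ω D ^ r) (r * z) := by
  refine ⟨fun D hD => ?_, ?_⟩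
  · by_cases hr : r = 0
    · right
      simp only [hr, pow_zero, P.ord_one]
      simp
    rcases h.1 D hD with h1 | h1
    · left
      simp only [h1]
      exact zero_pow hr
    right
    simp only [P.ord_pow]
    push_cast
    exact mul_le_mul_of_nonneg_left h1 (Nat.cast_nonneg _)
  · obtain ⟨E, hE, h0, hz⟩ := h.2
    refine ⟨E, hE, pow_ne_zero _ h0, ?_⟩
    simp only [P.ord_pow]
    push_cast
    rw [hz]

theorem ordEq_mul {P : Place ℂ K} {ω : (Fin n → Derivation ℂ K K) → K} {z : ℚ}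
    (h : OrdEq P ω z) {f : K} (hf : f ≠ 0) : OrdEq P (fun D => f * ω D) (P.ord f + z) := by
  refine ⟨fun D hD => ?_, ?_⟩
  · by_cases h0 : ω D = 0
    · left
      simp only [h0, mul_zero]
    right
    have h1 := (h.1 D hD).resolve_left h0
    simp only []
    rw [P.ord_mul hf h0]
    push_cast
    linarith
  · obtain ⟨E, hE, h0, hz⟩ := h.2
    refine ⟨E, hE, mul_ne_zero hf h0, ?_⟩
    rw [P.ord_mul hf h0]
    push_cast
    rw [hz]

theorem pluri_smul {m : ℕ} {ω : (Fin n → Derivation ℂ K K) → K} (hω : IsPluri m ω) (f : K) :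
    IsPluri m (fun D => f * ω D) := by
  intro A D
  change f * ω _ = _
  rw [hω]
  ring

/-- a multiple of the Cartier index -/
theorem cartier_mul {Δ : Place ℂ K → ℚ} {r₀ : ℕ} (h : CartierIndex y n Δ r₀) (r : ℕ) :
    CartierIndex y n Δ (r₀ * r) := by
  intro Q hQ
  obtain ⟨η, hη, hηP⟩ := h Q hQ
  refine ⟨fun D => η D ^ r, pluri_pow hη r, fun P hP ht => ?_⟩
  have h1 := ordEq_pow (hηP P hP ht) r
  have e : (r : ℚ) * -(r₀ * Δ P) = -(((r₀ * r : ℕ) : ℚ) * Δ P) := by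
    push_cast
    ring
  rw [e] at h1
  exact h1

/-- a nef divisor has a Cartier index -/
theorem exists_cartier (hy : NormalModel y) {Δ : Place ℂ K → ℚ} (hnef : LogNef y n Δ) :
    ∃ r₀ : ℕ, 0 < r₀ ∧ CartierIndex y n Δ r₀ := by
  obtain ⟨i, hi⟩ := hy.ne
  obtain ⟨m, hm, h⟩ := hnef i hi 1 le_rfl
  refine ⟨m, hm, fun Q hQ => ?_⟩
  obtain ⟨ω, hω, hωg⟩ := h Q hQ
  obtain ⟨l, hl⟩ := exists_centred hy Q
  refine ⟨fun D => (y i / y l) ^ m * ω D, pluri_smul (by simpa using hω.1) _,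
    fun P hP ht => ?_⟩
  have hyl : y i / y l ≠ 0 := div_ne_zero hi hl.1
  have h1 := ordEq_mul (hωg P l hP ht (centred_of_through hl ht)) (pow_ne_zero m hyl)
  have e : (P.ord ((y i / y l) ^ m) : ℚ) +
      (-(((m * 1 : ℕ) : ℚ) * Δ P) - m * P.ord (y i / y l)) = -((m : ℚ) * Δ P) := by
    rw [P.ord_pow]
    push_cast
    ring
  rw [e] at h1
  exact h1

/-- **The family of the linear systems.** -/
theorem exists_famRP (hy : NormalModel y) (hn : Algebra.trdeg ℂ K = n) (hn0 : 0 < n)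
    {Δ : Place ℂ K → ℚ} (hΔ : Effective y Δ) (hLC : LogCanonical y n Δ)
    (hnef : LogNef y n Δ) {φ : K →ₐ[ℂ] K} (hφ : PullBackSelfLe y n Δ φ)
    {x : Fin n → K} {E : Fin n → Derivation ℂ K K} (hx : IsTranscendenceBasis ℂ x)
    (hE : ∀ i j, E i (x j) = if i = j then 1 else 0) (hfr : IsFrame E) {i : Fin (N + 1)}
    (hi : y i ≠ 0) {A : Place ℂ K → ℚ} (hA : Effective y A)
    (hAP : ∀ P l, IsPrimeDivisor y P → Centred y l P → A P = P.ord (y i / y l)) :
    ∃ (r : ℕ) (a : ℕ → ℕ) (M β C : ℕ), 0 < r ∧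
      FamR n φ (VH y) (fun q => WP y n r Δ A E (a q * q) (a q)) a M β C ∧
      ∀ m b q : ℕ, 1 ≤ q → b * q ≤ m →
        Dom n (WP y n r Δ A E m b) (WP y n r Δ A E (a q * q) (a q)) (a q * q) m 1 := by
  classical
  have hess := hy.ess
  obtain ⟨r₀, hr₀, hcar₀⟩ := exists_cartier hy hnef
  obtain ⟨r₁, h₁, hr₁, hh₁, hle₁⟩ := hφ
  obtain ⟨r, hrr⟩ : ∃ r, r = r₀ * r₁ := ⟨_, rfl⟩
  have hr : 0 < r := by rw [hrr]; exact Nat.mul_pos hr₀ hr₁
  have hcar : CartierIndex y n Δ r := by rw [hrr]; exact cartier_mul hcar₀ r₁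
  have hr₀q : (r₀ : ℚ) ≠ 0 := by exact_mod_cast hr₀.ne'
  have hr₁q : (r₁ : ℚ) ≠ 0 := by exact_mod_cast hr₁.ne'
  have hle : ∀ P : Place ℂ K, IsPrimeDivisor y P → ∀ (Q : Place ℂ K) (e : ℕ),
      LiesOver φ P Q e → ∃ α : ℚ, LogDisc y n Δ Q α ∧
        1 - Δ P - P.ord (h₁ ^ r₀) / r ≤ e * α := by
    intro P hP Q e ho
    obtain ⟨α, hα, h⟩ := hle₁ P hP Q e ho
    refine ⟨α, hα, ?_⟩
    have e : (P.ord (h₁ ^ r₀) : ℚ) / (r : ℚ) = P.ord h₁ / r₁ := by
      rw [P.ord_pow, hrr]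
      push_cast
      field_simp
    rw [e]
    exact h
  -- the multiples which are generated by sections
  have h1 : ∀ q, ∃ a : ℕ, 1 ≤ q → 1 ≤ a ∧ ∀ Q : Place ℂ K, Divisorial n Q →
      ∃ ω : (Fin n → Derivation ℂ K K) → K, IsTwistedSectionP y i n Δ (a * (r * q)) a ω ∧
        GeneratesAtP y i n Δ (a * (r * q)) a ω Q := by
    intro q
    by_cases hq : 1 ≤ q
    · obtain ⟨m, hm, h⟩ := hnef i hi (r * q) (Nat.mul_pos hr hq)
      exact ⟨m, fun _ => ⟨hm, h⟩⟩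
    · exact ⟨1, fun h => absurd h hq⟩
  choose a ha using h1
  -- the orders
  have h2 : ∀ Q : Place ℂ K, ∃ e h : ℤ, Divisorial n Q → ∀ (m q : ℕ)
      (ω : (Fin n → Derivation ℂ K K) → K), IsTwistedSectionP y i n Δ (m * (r * q)) m ω →
        (ω E ≠ 0 → (m * q : ℤ) * e - m * h ≤ Q.ord (ω E)) ∧
        (GeneratesAtP y i n Δ (m * (r * q)) m ω Q →
          ω E ≠ 0 ∧ Q.ord (ω E) = (m * q : ℤ) * e - m * h) := by
    intro Q
    by_cases hQ : Divisorial n Q
    · obtain ⟨e, h, h3⟩ := exists_local hy hn hfr hx hE hcar hi Q hQ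
      exact ⟨e, h, fun _ => h3⟩
    · exact ⟨0, 0, fun h => absurd h hQ⟩
  choose e h he using h2
  -- the systems by means of the twisted sections
  have htw : ∀ (m q : ℕ) (ω : (Fin n → Derivation ℂ K K) → K),
      IsSection y n (r * (m * q)) ((r * (m * q)) • Δ + m • A) ω ↔
        IsTwistedSectionP y i n Δ (m * (r * q)) m ω := by
    intro m q ω
    have e1 : r * (m * q) = m * (r * q) := by ring
    rw [e1]
    exact ⟨fun h => twist_of_section hAP h, fun h => section_of_twist hy hAP h⟩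
  have hord : OrdF n (fun q => WP y n r Δ A E (a q * q) (a q)) a (fun Q => -e Q) h := by
    refine ⟨fun q hq => WP_fg hy hn hΔ hA E hr (Nat.mul_pos (ha q hq).1 hq) (a q),
      fun q hq => (ha q hq).1, fun q hq P hP f hf hf0 => ?_, fun q hq P hP => ?_⟩
    · obtain ⟨ω, hω, rfl⟩ := mem_WP.1 hf
      have h3 := (he P hP (a q) q ω ((htw _ _ _).1 hω)).1 hf0
      refine le_trans (le_of_eq ?_) h3
      ring
    · obtain ⟨ω, hω, hωg⟩ := (ha q hq).2 P hP
      obtain ⟨h3, h4⟩ := (he P hP (a q) q ω hω).2 hωg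
      refine ⟨ω E, mem_WP.2 ⟨ω, (htw _ _ _).2 hω, rfl⟩, h3, ?_⟩
      rw [h4]
      ring
  -- the pull back
  obtain ⟨C, q0, hC, hq0, hCq⟩ := exists_pole hy hi φ
  obtain ⟨δ, hδ, hpb⟩ := exists_pbP hy hy hn hn hx hE hfr hfr hi hAP hAP φ hr
    (pow_ne_zero r₀ hh₁) hle hq0 hCq
  obtain ⟨M, β, hlin⟩ := exists_linP hy hn hn0 hΔ hLC hA hx hE hfr hr
  refine ⟨r, a, M, M + β, C, hr, ⟨hn, VH_fg, ⟨_, _, hord⟩, hC, deg_pos hn hn φ, fun q hq => ?_,
    fun q hq => ?_, exists_up' hy hy hn hn φ, exists_dn hy hn hi φ⟩, fun m b q hq hb => ?_⟩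
  · have hCq1 : 1 ≤ C * q := Nat.mul_pos hC hq
    obtain ⟨w, hw⟩ : ∃ w, w = q0 ^ a (C * q) * (h₁ ^ r₀) ^ (a (C * q) * (C * q)) *
      δ ^ (r * (a (C * q) * (C * q))) := ⟨_, rfl⟩
    have hw0 : w ≠ 0 := by
      rw [hw]
      exact mul_ne_zero (mul_ne_zero (pow_ne_zero _ hq0) (pow_ne_zero _ (pow_ne_zero _ hh₁)))
        (pow_ne_zero _ hδ)
    refine ⟨(w ^ a q)⁻¹, inv_ne_zero (pow_ne_zero _ hw0), fun P hP f hf hf0 => ?_⟩
    obtain ⟨f₁, hf₁, rfl⟩ := mem_im.1 hf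
    obtain ⟨ω, hω, rfl⟩ := mem_WP.1 hf₁
    obtain ⟨ω', hω', hω'E⟩ := hpb _ _ ω hω
    have e1 : a (C * q) * (C * q) = (C * a (C * q)) * q := by ring
    have h4 : IsTwistedSectionP y i n Δ ((C * a (C * q)) * (r * q)) (C * a (C * q)) ω' := by
      rw [e1] at hω'
      exact (htw _ _ _).1 hω'
    have hωE : φ (ω E) = w⁻¹ * ω' E := by
      rw [hω'E, hw]
      field_simp
    have hne : ω' E ≠ 0 := by
      intro h0
      rw [h0, mul_zero] at hωE
      exact hf0 hωE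
    have h5 := (he P hP (C * a (C * q)) q ω' h4).1 hne
    obtain ⟨f', hf', hf'0, hf'o⟩ := hord.ex q hq P hP
    refine ⟨f', hf', hf'0, ?_⟩
    have h6 : P.ord (ω' E) = P.ord w + P.ord (φ (ω E)) := by
      rw [hωE, P.ord_mul (inv_ne_zero hw0) hne, P.ord_inv]
      ring
    rw [P.ord_inv, P.ord_pow, hf'o]
    rw [h6] at h5
    have h7 := mul_le_mul_of_nonneg_left h5 (show (0 : ℤ) ≤ a q from Int.natCast_nonneg _)
    push_cast at h7 ⊢
    nlinarith
  · obtain ⟨h0, hd⟩ := hlin (a q * q) (a q) (Nat.mul_pos (ha q hq).1 hq)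
    refine ⟨_, dom_mono hd (w := y i) (Submodule.subset_span ⟨i, rfl⟩) hi ?_⟩
    have h3 : M ≤ a q * M := Nat.le_mul_of_pos_left M (ha q hq).1
    calc (a q * q + 1) * M + a q * β = a q * q * M + M + a q * β := by ring
      _ ≤ a q * q * M + a q * M + a q * β := by omega
      _ = a q * (q * M + (M + β)) := by ring
  · refine ⟨one_ne_zero, fun P hP f hf hf0 => ?_⟩
    obtain ⟨ω, hω, rfl⟩ := mem_WP.1 hf
    obtain ⟨f', hf', hf'0, hf'o⟩ := hord.ex q hq P hP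
    refine ⟨f', hf', hf'0, ?_⟩
    have h3 : IsSection y n (r * (m * q)) ((r * (m * q)) • Δ + m • A) (fun D => ω D ^ q) := by
      refine ⟨?_, fun P hP D hD => ?_⟩
      · have := pluri_pow hω.1 q
        rwa [mul_assoc] at this
      rcases hω.2 P hP D hD with h4 | h4
      · left
        change ω D ^ q = 0
        rw [h4, zero_pow (by omega)]
      right
      change _ ≤ ((P.ord (ω D ^ q) : ℤ) : ℚ)
      rw [P.ord_pow]
      rw [Pi.add_apply, Pi.smul_apply, Pi.smul_apply, nsmul_eq_mul, nsmul_eq_mul] at h4 ⊢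
      have h5 : (0 : ℚ) ≤ ((q : ℕ) : ℚ) := Nat.cast_nonneg _
      have h6 := mul_le_mul_of_nonneg_left h4 h5
      have h7 : ((b * q : ℕ) : ℚ) ≤ m := by exact_mod_cast hb
      have h8 := mul_le_mul_of_nonneg_right h7 (hA.1 P hP)
      push_cast at h6 h8 ⊢
      nlinarith
    have h4 := (he P hP m q _ ((htw _ _ _).1 h3)).1 (pow_ne_zero _ hf0)
    change (m * q : ℤ) * e P - m * h P ≤ P.ord (ω E ^ q) at h4
    rw [P.ord_pow] at h4
    rw [P.ord_one, add_zero, hf'o]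
    have h5 := mul_le_mul_of_nonneg_left h4 (show (0 : ℤ) ≤ a q from Int.natCast_nonneg _)
    push_cast at h5 ⊢
    nlinarith

end

end Pool.Agent.T2H07.Dyr
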