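import Pool.Agent.T2H07.DrB
import Pool.Agent.T2H06.DYR.Main
import Pool.Agent.R887.NefP

/-!
**The numerical dimension of `K_X + Δ` and the dynamical degrees of a dominant rational self-map**,
for nef `K_X + Δ`.
-/

set_option autoImplicit false
set_option linter.overlappingInstances false
set_option linter.unusedSectionVars false
set_option linter.unusedVariables false

open FF Module MvPolynomial Filter Topology Pool.Agent.W602.GT Pool.Agent.W603.LV Pool.Agent.W619.PQ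
open Pool.Agent.Y172 Pool.Agent.Y191 Pool.Agent.R887
open Pool.Agent.T2H06.DYN (MM MM_dom MM_dom_rep Dom VH VH_fg pen_VH tendsto_root exists_pos Fam
  exists_hyp_dom)
open Pool.Agent.T2H06.DYR
open Pool.Agent.T2H07.Dyn (WP mem_WP WP_fg WP_mono exists_linP not_numDimLtP Tr LogKodairaGe
  DimensionsEq dims_of_few)

namespace Pool.Agent.T2H07.Dyr

section

variable {K : Type} [Field K] [Algebra ℂ K] {N n : ℕ} {y : Fin (N + 1) → K}

/-- the family for the identity -/
theorem fam_refl (hy : NormalModel y) (hn : Algebra.trdeg ℂ K = n) (hn0 : 0 < n)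
    {Δ A : Place ℂ K → ℚ} (hΔ : Effective y Δ) (hLC : LogCanonical y n Δ)
    {x : Fin n → K} {E : Fin n → Derivation ℂ K K}
    (hx : IsTranscendenceBasis ℂ x) (hE : ∀ i j, E i (x j) = if i = j then 1 else 0)
    (hfr : IsFrame E) {i : Fin (N + 1)} (hi : y i ≠ 0) (hA : Effective y A) {r : ℕ} (hr : 0 < r) :
    ∃ M β : ℕ, Fam n (1 : K ≃ₐ[ℂ] K) (VH y) (WP y n r Δ A E) M β := by
  obtain ⟨M, β, hM⟩ := exists_linP hy hn hn0 hΔ hLC hA hx hE hfr hr
  have h1 : Tr (WP y n r Δ A E) (1 : K ≃ₐ[ℂ] K) := Tr.one _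
  refine ⟨M, β, ⟨hn, VH_fg, fun m b hm => WP_fg hy hn hΔ hA E hr hm b,
    fun m b b' hb => WP_mono hA hb, fun m b hm => hM m b hm, fun t => ?_,
    fun t => exists_hyp_dom hy hi (1 ^ t)⟩⟩
  rw [one_zpow]
  exact h1.dom

/-- positivity, if the numerical dimension is at least `j` -/
theorem GT_pos_ofP (hy : NormalModel y) (hn : Algebra.trdeg ℂ K = n) (hn0 : 0 < n)
    {Δ : Place ℂ K → ℚ} (hΔ : Effective y Δ) (hLC : LogCanonical y n Δ) {r : ℕ} (hr : 0 < r)
    {φ : K →ₐ[ℂ] K}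
    {x : Fin n → K} {E : Fin n → Derivation ℂ K K} (hx : IsTranscendenceBasis ℂ x)
    (hE : ∀ i j, E i (x j) = if i = j then 1 else 0) (hfr : IsFrame E) {i : Fin (N + 1)}
    (hi : y i ≠ 0) {A : Place ℂ K → ℚ} (hA : Effective y A)
    (hAP : ∀ P l, IsPrimeDivisor y P → Centred y l P → A P = P.ord (y i / y l)) {a : ℕ → ℕ}
    {M β C : ℕ} (hF : FamR n φ (VH y) (fun q => WP y n r Δ A E (a q * q) (a q)) a M β C)
    (hdom : ∀ m b q : ℕ, 1 ≤ q → b * q ≤ m →
        Dom n (WP y n r Δ A E m b) (WP y n r Δ A E (a q * q) (a q)) (a q * q) m 1)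
    {j : ℕ} (hj : j ≤ n) (hnd : ¬ NumDimLt y n Δ j) :
    0 < GT φ (VH y) (fun q => WP y n r Δ A E (a q * q) (a q)) a 0 j
      (Multiset.replicate (n - j) 0) := by
  have hess := hy.ess
  obtain ⟨M', β', hF'⟩ := fam_refl hy hn hn0 hΔ hLC hx hE hfr hi hA hr
  obtain ⟨ε, hε, hlow⟩ := not_numDimLtP hy hn hn0 hfr hi hA hAP hr hF' hj hnd
  refine lt_of_lt_of_le hε ?_
  refine ge_of_tendsto (GT_tendsto hF 0 (i := j) (s := Multiset.replicate (n - j) 0) (by
    rw [Multiset.card_replicate]; omega)) ?_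
  filter_upwards [eventually_ge_atTop 1] with q hq
  obtain ⟨m, ν, hm, hν, hle⟩ := hlow q
  have hνm : ν * q ≤ m := (Nat.mul_le_mul_left ν (Nat.le_succ _)).trans hν
  have hR : ∀ U ∈ Multiset.replicate (n - j) (VH y), U.FG := fun U hU => by
    rw [Multiset.eq_of_mem_replicate hU]
    exact VH_fg
  have h1 := MM_dom_rep hn (WP_fg hy hn hΔ hA E hr hm ν) (V_fg hF hq) (hdom m ν q hq hνm) j
    (R := Multiset.replicate (n - j) (VH y)) (by rw [Multiset.card_replicate]; omega) hR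
  have e1 : T2H06.DYN.NN (1 : K ≃ₐ[ℂ] K) (VH y) (WP y n r Δ A E) j m ν
      (Multiset.replicate (n - j) 0) = MM (Multiset.replicate j (WP y n r Δ A E m ν) +
        Multiset.replicate (n - j) (VH y)) := by
    unfold T2H06.DYN.NN
    rw [Multiset.map_replicate, T2H06.DYN.AA_zero]
  have e2 : NN φ (VH y) (fun q => WP y n r Δ A E (a q * q) (a q)) 0 j q
      (Multiset.replicate (n - j) 0) = MM (Multiset.replicate j
        (WP y n r Δ A E (a q * q) (a q)) + Multiset.replicate (n - j) (VH y)) := by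
    unfold NN UT
    rw [Multiset.map_replicate, AA_zero, pow_zero, im_one]
  rw [← e2] at h1
  rw [e1] at hle
  unfold QQ
  have ha1 : (0 : ℝ) < a q := by exact_mod_cast a_pos hF hq
  have hq0 : (0 : ℝ) < q := by exact_mod_cast hq
  have hm0 : (0 : ℝ) < m := by exact_mod_cast hm
  have h2 : ((a q : ℝ) * q) ^ j * (MM (Multiset.replicate j (WP y n r Δ A E m ν) +
      Multiset.replicate (n - j) (VH y)) : ℝ) ≤ (m : ℝ) ^ j *
      (NN φ (VH y) (fun q => WP y n r Δ A E (a q * q) (a q)) 0 j q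
        (Multiset.replicate (n - j) 0) : ℝ) := by exact_mod_cast h1
  obtain ⟨X, hX⟩ : ∃ X : ℝ, X = NN φ (VH y) (fun q => WP y n r Δ A E (a q * q) (a q)) 0 j q
        (Multiset.replicate (n - j) 0) := ⟨_, rfl⟩
  obtain ⟨Z, hZ⟩ : ∃ Z : ℝ, Z = MM (Multiset.replicate j (WP y n r Δ A E m ν) +
      Multiset.replicate (n - j) (VH y)) := ⟨_, rfl⟩
  rw [← hX, ← hZ] at h2
  rw [← hZ] at hle
  rw [← hX, le_div_iff₀ (by positivity)]
  have h3 : ((a q : ℝ) * q) ^ j * (ε * (m : ℝ) ^ j) ≤ (m : ℝ) ^ j * X :=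
    (mul_le_mul_of_nonneg_left hle (by positivity)).trans h2
  have hmj : (0 : ℝ) < (m : ℝ) ^ j := by positivity
  refine le_of_mul_le_mul_left ?_ hmj
  refine le_trans (le_of_eq ?_) h3
  ring

/-- **The numerical dimension of `K_X + Δ` and the dynamical degrees of a dominant rational
self-map.** -/
theorem dynRP (hy : NormalModel y) (hn : Algebra.trdeg ℂ K = n) (hn0 : 0 < n)
    {Δ : Place ℂ K → ℚ} (hΔ : Effective y Δ) (hLC : LogCanonical y n Δ)
    (hnef : LogNef y n Δ) {φ : K →ₐ[ℂ] K} (hφ : PullBackSelfLe y n Δ φ) :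
    ∃ δ : ℕ → ℝ, (∀ p ≤ n, 1 ≤ δ p ∧ DynDegree y n φ p (δ p)) ∧ δ 0 = 1 ∧
      δ n = mapDegree φ ∧
      ∀ j ≤ n, ¬ NumDimLt y n Δ j → ∃ q, q + j ≤ n ∧ ∀ i ≤ j, ∀ p ≤ n, δ p ≤ δ (q + i) := by
  classical
  have hess := hy.ess
  obtain ⟨i, hi⟩ := hy.ne
  obtain ⟨A, hA, hAP⟩ := exists_hyp hy hi
  obtain ⟨x, E, hx, hE⟩ := exists_crd hn (k := ℂ) (K := K)
  have hfr : IsFrame E := fun F => ⟨fun j => F (x j),
    (Pool.Agent.W73.PG.PULL.expand x hx E hE F).symm⟩
  obtain ⟨r, a, M, β, C, hr, hF, hdom⟩ :=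
    exists_famRP hy hn hn0 hΔ hLC hnef hφ hx hE hfr hi hA hAP
  -- the case of no sections
  have hpos0 : 0 < GT φ (VH y) (fun q => WP y n r Δ A E (a q * q) (a q)) a 0 0
      (Multiset.replicate (n - 0) 0) := by
    obtain ⟨M', β', hF'⟩ := fam_refl hy hn hn0 hΔ hLC hx hE hfr hi hA hr
    have h1 := exists_pos hy hn hF' (m := 1) le_rfl 0
    unfold T2H06.DYN.NN at h1
    rw [Multiset.replicate_zero, zero_add, Multiset.map_replicate, T2H06.DYN.AA_zero, pow_zero,
      mul_one] at h1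
    unfold GT T2H06.DYR.gam
    rw [Multiset.map_replicate, AA_zero]
    linarith
  obtain ⟨d, hd, hd0, hdn, -⟩ := fam_plateau hF (Nat.zero_le n) hpos0
  have hpos : ∀ p ≤ n, ∀ m : ℕ,
      0 < MM ((Multiset.replicate p m + Multiset.replicate (n - p) 0).map (AA φ (VH y))) := by
    intro p hp m
    have h1 := GI_pos hF (Nat.zero_le n) (GI_ge hF (Nat.zero_le n) hpos0) 0 le_rfl
      (Multiset.replicate p m + Multiset.replicate (n - p) 0) (by
        rw [Multiset.card_add, Multiset.card_replicate, Multiset.card_replicate]; omega)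
    rw [GI_zero hF] at h1
    exact_mod_cast h1
  have hdeg : (0 : ℝ) < mapDegree φ := by exact_mod_cast hF.deg
  refine ⟨fun p => Real.exp (d p), fun p hp => ⟨?_, _, fun m => isGreatest_iter hn hF hp m
    (hpos p hp m), tendsto_root (hpos p hp) (hd p hp)⟩, ?_, ?_, fun j hj hnd => ?_⟩
  · refine Real.one_le_exp (ge_of_tendsto' (hd p hp) fun m => ?_)
    have h1 : (1 : ℝ) ≤ MM ((Multiset.replicate p m +
        Multiset.replicate (n - p) 0).map (AA φ (VH y))) := by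
      exact_mod_cast hpos p hp m
    exact div_nonneg (Real.log_nonneg h1) (Nat.cast_nonneg _)
  · simp only [hd0, Real.exp_zero]
  · simp only [hdn]
    exact Real.exp_log hdeg
  · obtain ⟨d', hd', -, -, q, hq, hmax⟩ := fam_plateau hF hj
      (GT_pos_ofP hy hn hn0 hΔ hLC hr hx hE hfr hi hA hAP hF hdom hj hnd)
    have e : ∀ p ≤ n, d' p = d p := fun p hp => tendsto_nhds_unique (hd' p hp) (hd p hp)
    refine ⟨q, hq, fun i hi p hp => Real.exp_le_exp.2 ?_⟩
    rw [← e p hp, ← e (q + i) (by omega)]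
    exact hmax i hi p hp

end

end Pool.Agent.T2H07.Dyr
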