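import Pool.Agent.T2H06.DYN.Defs

/-!
Definitions: birational self-maps of a pair which do not enlarge the log canonical class, and the
Kodaira and the numerical dimension of a log canonical class as dimensions of images and by means of
positive intersection products.
-/

set_option autoImplicit false

open FF Pool.Agent.W602.GT Pool.Agent.Y172 Pool.Agent.R887

namespace Pool.Agent.T2H07.Dyn

section

variable {K : Type} [Field K] [Algebra ℂ K] {N : ℕ}

/-- The birational self-map `f` of `X`, `n` being the dimension of `X` and `g = f^*`, satisfies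
`f^* (K_X + Δ) ≤ K_X + Δ` up to `ℚ`-linear equivalence: there are `r ≥ 1` and a rational function
`h ≠ 0` such that the log discrepancy of `(X, Δ)` along the image `Q = f (P)`, a divisor over `X`, of
any prime divisor `P` of `X` is at least `1 - Δ P - (1 / r) ord_P h`. -/
def PullBackSelfLe (y : Fin (N + 1) → K) (n : ℕ) (Δ : Place ℂ K → ℚ) (g : K ≃ₐ[ℂ] K) : Prop :=
  ∃ (r : ℕ) (h : K), 0 < r ∧ h ≠ 0 ∧ ∀ P Q : Place ℂ K, IsPrimeDivisor y P →
    (∀ u : K, P.ord (g u) = Q.ord u) → LogDisc y n Δ Q (1 - Δ P - P.ord h / r)

/-- The Kodaira dimension of `K_X + Δ`, `n` being the dimension of `X`, is at least `k`: for some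
`m ≥ 1` there are `k + 1` sections of `m (K_X + Δ)` such that the quotients of the last `k` ones by
the first one are algebraically independent, so that the image of `X` by the rational map given by
`m (K_X + Δ)` has at least dimension `k`. -/
def LogKodairaGe (y : Fin (N + 1) → K) (n : ℕ) (Δ : Place ℂ K → ℚ) (k : ℕ) : Prop :=
  ∃ m : ℕ, 1 ≤ m ∧ ∃ (ω : Fin (k + 1) → (Fin n → Derivation ℂ K K) → K)
    (E : Fin n → Derivation ℂ K K), (∀ i, IsSection y n m (m • Δ) (ω i)) ∧ ω 0 E ≠ 0 ∧
      AlgebraicIndependent ℂ (fun i : Fin k => ω i.succ E / ω 0 E)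

/-- The Kodaira dimension and the numerical dimension of `K_X + Δ` are both equal to `k`, for the
numerical dimension which is defined by means of positive intersection products. -/
def DimensionsEq (y : Fin (N + 1) → K) (n : ℕ) (Δ : Place ℂ K → ℚ) (k : ℕ) : Prop :=
  (LogKodairaGe y n Δ k ∧ ¬ LogKodairaGe y n Δ (k + 1)) ∧
    (NumDimLt y n Δ (k + 1) ∧ ¬ NumDimLt y n Δ k)

end

end Pool.Agent.T2H07.Dyn
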