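import Pool.Agent.T2H06.DYN.GeoD
import Pool.Agent.T2H07.DynDefs

/-!
The orders of the sections of `m (K_X + Δ) + b H` at the divisors over the variety, and the action of
birational automorphisms.
-/

set_option autoImplicit false
set_option linter.overlappingInstances false
set_option linter.unusedSectionVars false
set_option linter.unusedVariables false

open FF MvPolynomial Pool.Agent.W602.GT Pool.Agent.W603.LV
open Pool.Agent.Y172 Pool.Agent.Y191 Pool.Agent.R887 Pool.Agent.T2H06.DYN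

namespace Pool.Agent.T2H07.Dyn

section

variable {K : Type} [Field K] [Algebra ℂ K] {N n : ℕ} {y : Fin (N + 1) → K}

/-- **The order of a section at a divisor over `X` of log discrepancy at least `α`.** -/
theorem sec_ordP (hy : NormalModel y) (hn : Algebra.trdeg ℂ K = n)
    {x : Fin n → K} {E : Fin n → Derivation ℂ K K} (hx : IsTranscendenceBasis ℂ x)
    (hE : ∀ i j, E i (x j) = if i = j then 1 else 0) (hfr : IsFrame E) {i : Fin (N + 1)}
    (hi : y i ≠ 0) {Δ A : Place ℂ K → ℚ}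
    (hAP : ∀ P l, IsPrimeDivisor y P → Centred y l P → A P = P.ord (y i / y l)) {m b : ℕ}
    {ω : (Fin n → Derivation ℂ K K) → K} (h : IsSection y n m (m • Δ + b • A) ω) {Q : Place ℂ K}
    {α : ℚ} (hQ : LogDisc y n Δ Q α) {l : Fin (N + 1)} (hl : Centred y l Q) :
    OrdGe Q ω (m * (α - 1) - b * Q.ord (y i / y l)) := by
  classical
  intro D hD
  rcases hQ with ⟨hQ, hα⟩ | ⟨r, hr, η, hη, hηP, hηQ⟩
  · rcases h.2 Q hQ D hD with h1 | h1
    · exact Or.inl h1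
    right
    refine le_trans ?_ h1
    rw [Pi.add_apply, Pi.smul_apply, Pi.smul_apply, nsmul_eq_mul, nsmul_eq_mul, hAP Q l hQ hl]
    have h2 : (0 : ℚ) ≤ m := Nat.cast_nonneg _
    nlinarith
  by_cases hωE : ω E = 0
  · left
    rw [pluri_zero hfr h.1 hωE]
    rfl
  by_cases hωD : ω D = 0
  · exact Or.inl hωD
  right
  obtain ⟨c, -, hc⟩ := exists_ordc hy hn hx hE
  obtain ⟨P0, hP0, hP0t⟩ := exists_through hy Q
  have hηE : η E ≠ 0 := (ordEq_val hfr hc hP0 hη (hηP P0 hP0 hP0t)).1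
  have hyl : y i / y l ≠ 0 := div_ne_zero hi hl.1
  obtain ⟨f, hf⟩ : ∃ f, f = ω E ^ r * (y i / y l) ^ (r * b) / η E ^ m := ⟨_, rfl⟩
  have hf0 : f ≠ 0 := by
    rw [hf]
    exact div_ne_zero (mul_ne_zero (pow_ne_zero _ hωE) (pow_ne_zero _ hyl)) (pow_ne_zero _ hηE)
  have hordf : ∀ P : Place ℂ K, P.ord f =
      r * P.ord (ω E) + r * b * P.ord (y i / y l) - m * P.ord (η E) := by
    intro P
    rw [hf, P.ord_div (mul_ne_zero (pow_ne_zero _ hωE) (pow_ne_zero _ hyl)) (pow_ne_zero _ hηE),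
      P.ord_mul (pow_ne_zero _ hωE) (pow_ne_zero _ hyl), P.ord_pow, P.ord_pow, P.ord_pow]
    push_cast
    ring
  have h1 : 0 ≤ Q.ord f := by
    refine reg_of_through hy hf0 fun P hP ht => ?_
    have hPl := centred_of_through hl ht
    obtain ⟨-, h2⟩ := ordEq_val hfr hc hP hη (hηP P hP ht)
    have h3 := ((hc P hP m ω h.1 _).1 (h.2 P hP)).resolve_left hωE
    rw [Pi.add_apply, Pi.smul_apply, Pi.smul_apply, nsmul_eq_mul, nsmul_eq_mul,
      hAP P l hP hPl] at h3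
    have h4 : (0 : ℚ) ≤ ((P.ord f : ℤ) : ℚ) := by
      rw [hordf]
      push_cast
      have hr0 : (0 : ℚ) ≤ r := Nat.cast_nonneg _
      have h5 := mul_le_mul_of_nonneg_left h3 hr0
      have h6 : (m : ℚ) * (r * c P + P.ord (η E)) = m * (-(r * Δ P)) := by rw [h2]
      nlinarith
    exact_mod_cast h4
  rw [hordf] at h1
  choose C hC using fun i => hfr (D i)
  have e1 : D = fun i => ∑ j, Matrix.of C i j • E j := funext hC
  obtain ⟨δ, hδ⟩ : ∃ δ, δ = (Matrix.of C).det := ⟨_, rfl⟩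
  have h2 : ω D = δ ^ m * ω E := by
    conv_lhs => rw [e1]
    rw [hδ]
    exact h.1 _ _
  have h3 : η D = δ ^ r * η E := by
    conv_lhs => rw [e1]
    rw [hδ]
    exact hη _ _
  have hδm : δ ^ m ≠ 0 := by
    intro h0
    rw [h0, zero_mul] at h2
    exact hωD h2
  have h4 : Q.ord (ω D) = m * Q.ord δ + Q.ord (ω E) := by
    rw [h2, Q.ord_mul hδm hωE, Q.ord_pow]
  have hrq : (0 : ℚ) < r := by exact_mod_cast hr
  have h5 : (m : ℚ) * (r * (α - 1)) ≤ (m : ℚ) * (r * Q.ord δ + Q.ord (η E)) := by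
    by_cases hm : m = 0
    · rw [hm]; simp
    have hδ0 : δ ≠ 0 := by
      rintro rfl
      exact hδm (zero_pow hm)
    have h6 : η D ≠ 0 := by
      rw [h3]
      exact mul_ne_zero (pow_ne_zero _ hδ0) hηE
    have h7 := (hηQ D hD).resolve_left h6
    rw [h3, Q.ord_mul (pow_ne_zero _ hδ0) hηE, Q.ord_pow] at h7
    push_cast at h7
    exact mul_le_mul_of_nonneg_left h7 (Nat.cast_nonneg _)
  have h1' : (0 : ℚ) ≤ r * Q.ord (ω E) + r * b * Q.ord (y i / y l) - m * Q.ord (η E) := by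
    exact_mod_cast h1
  have h6 : 0 ≤ (r : ℚ) * (Q.ord (ω D) + b * Q.ord (y i / y l) - m * (α - 1)) := by
    rw [h4]
    push_cast
    nlinarith
  have h7 := nonneg_of_mul_nonneg_right h6 hrq
  linarith

/-- the system of the sections of `r m (K_X + Δ) + b A` -/
def WP (y : Fin (N + 1) → K) (n r : ℕ) (Δ A : Place ℂ K → ℚ)
    (E : Fin n → Derivation ℂ K K) (m b : ℕ) : Submodule ℂ K :=
  VS y n (r * m) ((r * m) • Δ + b • A) E

theorem mem_WP {r m b : ℕ} {Δ A : Place ℂ K → ℚ} {E : Fin n → Derivation ℂ K K} {f : K} :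
    f ∈ WP y n r Δ A E m b ↔ ∃ ω, IsSection y n (r * m) ((r * m) • Δ + b • A) ω ∧ ω E = f := Iff.rfl

/-- the systems are transported by the automorphism, up to functions -/
def Tr (W : ℕ → ℕ → Submodule ℂ K) (g : K ≃ₐ[ℂ] K) : Prop :=
  ∃ C : ℕ, ∀ m b : ℕ, ∃ c : K, c ≠ 0 ∧ ∀ f ∈ W m b, c * g f ∈ W m (C * b)

theorem Tr.one (W : ℕ → ℕ → Submodule ℂ K) : Tr W 1 := by
  refine ⟨1, fun m b => ⟨1, one_ne_zero, fun f hf => ?_⟩⟩
  rw [one_mul, one_mul]
  exact hf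

theorem Tr.mul {W : ℕ → ℕ → Submodule ℂ K} {g g' : K ≃ₐ[ℂ] K} (h : Tr W g) (h' : Tr W g') :
    Tr W (g * g') := by
  obtain ⟨C, hC⟩ := h
  obtain ⟨C', hC'⟩ := h'
  refine ⟨C * C', fun m b => ?_⟩
  obtain ⟨c', hc', h1⟩ := hC' m b
  obtain ⟨c, hc, h2⟩ := hC m (C' * b)
  refine ⟨c * g c', mul_ne_zero hc (by rwa [Ne, map_eq_zero]), fun f hf => ?_⟩
  have h3 := h2 _ (h1 f hf)
  have h4 : c * g (c' * g' f) = c * g c' * (g * g') f := by
    rw [map_mul, mul_assoc]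
    rfl
  rw [h4] at h3
  rw [mul_assoc C C' b]
  exact h3

theorem Tr.pow {W : ℕ → ℕ → Submodule ℂ K} {g : K ≃ₐ[ℂ] K} (h : Tr W g) (k : ℕ) :
    Tr W (g ^ k) := by
  induction k with
  | zero => rw [pow_zero]; exact Tr.one W
  | succ k ih => rw [pow_succ]; exact ih.mul h

theorem Tr.zpow {W : ℕ → ℕ → Submodule ℂ K} {g : K ≃ₐ[ℂ] K} (h : Tr W g) (h' : Tr W g⁻¹)
    (t : ℤ) : Tr W (g ^ t) := by
  rcases Int.eq_nat_or_neg t with ⟨k, rfl | rfl⟩
  · rw [zpow_natCast]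
    exact h.pow k
  · rw [zpow_neg, zpow_natCast, ← inv_pow]
    exact h'.pow k

theorem Tr.dom {W : ℕ → ℕ → Submodule ℂ K} {g : K ≃ₐ[ℂ] K} (h : Tr W g) :
    ∃ C : ℕ, ∀ m b : ℕ, ∃ q : K, Dom n (im g (W m b)) (W m (C * b)) 1 1 q := by
  obtain ⟨C, hC⟩ := h
  refine ⟨C, fun m b => ?_⟩
  obtain ⟨c, hc, h1⟩ := hC m b
  refine ⟨c⁻¹, inv_ne_zero hc, fun P hP f hf hf0 => ?_⟩
  obtain ⟨f', hf', rfl⟩ := mem_im.1 hf
  refine ⟨c * g f', h1 f' hf', mul_ne_zero hc hf0, ?_⟩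
  rw [P.ord_inv, P.ord_mul hc hf0]
  push_cast
  linarith

/-- **The transported sections.** -/
theorem tr_of_le (hy : NormalModel y) (hn : Algebra.trdeg ℂ K = n)
    {x : Fin n → K} {E : Fin n → Derivation ℂ K K} (hx : IsTranscendenceBasis ℂ x)
    (hE : ∀ i j, E i (x j) = if i = j then 1 else 0) (hfr : IsFrame E) {i : Fin (N + 1)}
    (hi : y i ≠ 0) {Δ A : Place ℂ K → ℚ}
    (hAP : ∀ P l, IsPrimeDivisor y P → Centred y l P → A P = P.ord (y i / y l))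
    (g : K ≃ₐ[ℂ] K) {r : ℕ} {h : K} (hr : 0 < r) (hh : h ≠ 0)
    (hle : ∀ P Q : Place ℂ K, IsPrimeDivisor y P →
      (∀ u : K, P.ord (g u) = Q.ord u) → LogDisc y n Δ Q (1 - Δ P - P.ord h / r)) :
    Tr (WP y n r Δ A E) g := by
  obtain ⟨C, q, hq, hCq⟩ := exists_pole hy hi g
  obtain ⟨δ, hδ, hδm⟩ := exists_det hE hfr g
  have hrq : (0 : ℚ) < r := by exact_mod_cast hr
  refine ⟨C, fun m b => ⟨q ^ b * h ^ m * δ ^ (r * m), mul_ne_zero (mul_ne_zero (pow_ne_zero _ hq)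
    (pow_ne_zero _ hh)) (pow_ne_zero _ hδ), fun f hf => ?_⟩⟩
  obtain ⟨ω, hω, rfl⟩ := mem_WP.1 hf
  refine mem_WP.2 ⟨fun D => q ^ b * h ^ m * tf g ω D, ⟨fun M D => ?_, fun P hP D hD => ?_⟩, ?_⟩
  · simp only []
    rw [tf_pluri g hω.1 M D]
    ring
  · obtain ⟨l, hl⟩ := exists_centred hy (pl g P)
    obtain ⟨l', hl'⟩ := exists_centred hy P
    have h0 := hle P (pl g P) hP fun u => rfl
    have h1 := tf_ordGe g (sec_ordP hy hn hx hE hfr hi hAP hω h0 hl) D hD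
    have hqh : q ^ b * h ^ m ≠ 0 := mul_ne_zero (pow_ne_zero _ hq) (pow_ne_zero _ hh)
    rcases h1 with h1 | h1
    · left
      change q ^ b * h ^ m * tf g ω D = 0
      rw [h1, mul_zero]
    by_cases h0 : tf g ω D = 0
    · left
      change q ^ b * h ^ m * tf g ω D = 0
      rw [h0, mul_zero]
    right
    change _ ≤ ((P.ord (q ^ b * h ^ m * tf g ω D) : ℤ) : ℚ)
    rw [P.ord_mul hqh h0, P.ord_mul (pow_ne_zero _ hq) (pow_ne_zero _ hh), P.ord_pow, P.ord_pow,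
      Pi.add_apply, Pi.smul_apply, Pi.smul_apply, nsmul_eq_mul, nsmul_eq_mul, hAP P l' hP hl']
    rw [pl_ord] at h1
    have h2 := hCq P l l' hl hl'
    have h3 : ((P.ord (g (y i / y l)) : ℤ) : ℚ) ≤ C * P.ord (y i / y l') + P.ord q := by
      exact_mod_cast h2
    have h4 := mul_le_mul_of_nonneg_left h3 (show (0 : ℚ) ≤ b from Nat.cast_nonneg b)
    have h5 : ((r * m : ℕ) : ℚ) * (1 - Δ P - P.ord h / r - 1) = -((r * m : ℕ) * Δ P) -
        m * P.ord h := by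
      push_cast
      field_simp
      ring
    rw [h5] at h1
    push_cast at h1 ⊢
    nlinarith
  · simp only []
    rw [hδm (r * m) ω hω.1]
    ring

end

end Pool.Agent.T2H07.Dyn
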