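import Pool.Agent.Y172.R6

/-!
The Iitaka dimension and the numerical dimension of a real divisor, in terms of the spaces of the
rational functions `f` with `div f + m D ≥ 0`.
-/

set_option autoImplicit false
set_option linter.overlappingInstances false
set_option linter.unusedSectionVars false

open FF Filter Pool.Agent.W602.GT Pool.Agent.W603.LV Pool.Agent.Y172

namespace Pool.Agent.T2H07

section

variable {K : Type} [Field K] [Algebra ℂ K] {N : ℕ}

/-- The rational function `f` is a section of `⌊D⌋`, where `D` is a real divisor on `X`: `f = 0`, or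
`div f + D ≥ 0`. -/
def FSec (y : Fin (N + 1) → K) (D : Place ℂ K → ℝ) (f : K) : Prop :=
  ∀ P, IsPrimeDivisor y P → f = 0 ∨ -(D P) ≤ P.ord f

/-- The dimension of the space of the sections of `⌊D⌋`. -/
noncomputable def ell (y : Fin (N + 1) → K) (D : Place ℂ K → ℝ) : ℕ :=
  Module.finrank ℂ (Submodule.span ℂ {f : K | FSec y D f})

open scoped Classical in
/-- The Iitaka dimension of the real divisor `D`: it is `⊥` if `⌊m D⌋` has only the section `0` for
all `m ≥ 1`, and otherwise the largest `k` such that the upper limit of `h⁰ (⌊m D⌋) / m ^ k` is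
positive. -/
noncomputable def iitakaDim (y : Fin (N + 1) → K) (D : Place ℂ K → ℝ) : WithBot ℕ :=
  if ∀ m : ℕ, 1 ≤ m → ell y (m • D) = 0 then ⊥ else
    ((sSup {k : ℕ | 0 < limsup (fun m : ℕ => (ell y (m • D) : ENNReal) / (m : ENNReal) ^ k)
      atTop} : ℕ) : WithBot ℕ)

/-- The numerical dimension of the real divisor `D` with respect to the real divisor `A`: the upper
limit of `log h⁰ (⌊m D + A⌋) / log m`. -/
noncomputable def numDim (y : Fin (N + 1) → K) (D A : Place ℂ K → ℝ) : EReal :=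
  limsup (fun m : ℕ => ENNReal.log (ell y (m • D + A) : ENNReal) / (Real.log m : EReal)) atTop

/-- `D` is a real divisor on `X`: it has finitely many components. -/
def IsRDiv (y : Fin (N + 1) → K) (D : Place ℂ K → ℝ) : Prop :=
  {P | IsPrimeDivisor y P ∧ D P ≠ 0}.Finite

/-- `D` is an effective real divisor on `X`. -/
def EffR (y : Fin (N + 1) → K) (D : Place ℂ K → ℝ) : Prop :=
  IsRDiv y D ∧ ∀ P, IsPrimeDivisor y P → 0 ≤ D P

variable {y : Fin (N + 1) → K}

theorem FSec.mul {D D' : Place ℂ K → ℝ} {f f' : K} (h : FSec y D f) (h' : FSec y D' f') :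
    FSec y (D + D') (f * f') := by
  intro P hP
  by_cases h3 : f = 0
  · exact Or.inl (by rw [h3, zero_mul])
  by_cases h4 : f' = 0
  · exact Or.inl (by rw [h4, mul_zero])
  right
  have h1 := (h P hP).resolve_left h3
  have h2 := (h' P hP).resolve_left h4
  rw [P.ord_mul h3 h4, Pi.add_apply]
  push_cast
  linarith

theorem fsec_one : FSec y 0 (1 : K) := fun P _ => Or.inr (by rw [P.ord_one]; simp)

theorem FSec.pow {D : Place ℂ K → ℝ} {f : K} (h : FSec y D f) (t : ℕ) : FSec y (t • D) (f ^ t) := by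
  induction t with
  | zero =>
    rw [zero_smul, pow_zero]
    exact fsec_one
  | succ t ih =>
    have h1 := ih.mul h
    have e2 : t • D + D = (t + 1) • D := by rw [add_smul, one_smul]
    rw [e2] at h1
    rw [pow_succ]
    exact h1

theorem fsec_prod {D : Place ℂ K → ℝ} {r : ℕ} {f : Fin r → K} (h : ∀ i, FSec y D (f i))
    (a : Fin r → ℕ) : FSec y ((∑ i, a i) • D) (∏ i, f i ^ a i) := by
  induction r with
  | zero =>
    simp only [Finset.univ_eq_empty, Finset.sum_empty, zero_smul, Finset.prod_empty]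
    exact fsec_one
  | succ r ih =>
    have h1 := ((h 0).pow (a 0)).mul (ih (fun i => h i.succ) fun i => a i.succ)
    simp only [Fin.sum_univ_succ, Fin.prod_univ_succ, add_smul]
    exact h1

theorem FSec.mono {D D' : Place ℂ K → ℝ} {f : K} (h : FSec y D f)
    (hD : ∀ P, IsPrimeDivisor y P → D P ≤ D' P) : FSec y D' f := by
  refine fun P hP => (h P hP).imp_right fun h1 => ?_
  linarith [hD P hP]

/-- the space of the sections -/
def fsub (y : Fin (N + 1) → K) (D : Place ℂ K → ℝ) : Submodule ℂ K where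
  carrier := {f | FSec y D f}
  add_mem' := by
    rintro f f' h h' P hP
    rcases h P hP with h3 | h3
    · rw [h3, zero_add]
      exact h' P hP
    rcases h' P hP with h4 | h4
    · rw [h4, add_zero]
      exact Or.inr h3
    by_cases h5 : f = 0
    · rw [h5, zero_add]
      exact Or.inr h4
    by_cases h6 : f' = 0
    · rw [h6, add_zero]
      exact Or.inr h3
    by_cases h7 : f + f' = 0
    · exact Or.inl h7
    right
    have h8 := P.ord_add h5 h6 h7
    have h9 : -(D P) ≤ ((min (P.ord f) (P.ord f') : ℤ) : ℝ) := by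
      rw [Int.cast_min]
      exact le_min h3 h4
    exact h9.trans (by exact_mod_cast h8)
  zero_mem' := fun P _ => Or.inl rfl
  smul_mem' := by
    rintro c f h P hP
    by_cases hc : c = 0
    · exact Or.inl (by rw [hc, zero_smul])
    rcases h P hP with h3 | h3
    · exact Or.inl (by rw [h3, smul_zero])
    by_cases h4 : f = 0
    · exact Or.inl (by rw [h4, smul_zero])
    right
    rw [Algebra.smul_def, P.ord_mul (by simpa using hc) h4, P.ord_const hc, zero_add]
    exact h3

theorem ell_eq (D : Place ℂ K → ℝ) : ell y D = Module.finrank ℂ (fsub y D) := by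
  unfold ell
  have : Submodule.span ℂ {f : K | FSec y D f} = fsub y D := Submodule.span_eq (fsub y D)
  rw [this]

theorem finite_ell {D : Place ℂ K → ℝ} {B : ℕ}
    (hB : ∀ (r : ℕ) (f : Fin r → K), LinearIndependent ℂ f → (∀ i, FSec y D (f i)) → r ≤ B) :
    Module.Finite ℂ (fsub y D) ∧ ell y D ≤ B := by
  have h1 : Module.rank ℂ (fsub y D) ≤ B := by
    refine rank_le fun s hs => ?_
    have h2 := hs.map' (fsub y D).subtype (Submodule.ker_subtype _)
    have h3 := h2.comp s.equivFin.symm s.equivFin.symm.injective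
    exact hB _ _ h3 fun i => (s.equivFin.symm i).1.2
  refine ⟨?_, ?_⟩
  · exact Module.rank_lt_aleph0_iff.1 (lt_of_le_of_lt h1 Cardinal.natCast_lt_aleph0)
  · rw [ell_eq]
    exact Module.finrank_le_of_rank_le h1

theorem le_ell {D : Place ℂ K → ℝ} (hfin : Module.Finite ℂ (fsub y D)) {ι : Type}
    [Fintype ι] {v : ι → K} (hv : LinearIndependent ℂ v) (h : ∀ i, FSec y D (v i)) :
    Fintype.card ι ≤ ell y D := by
  rw [ell_eq]
  have h1 : LinearIndependent ℂ (fun i => (⟨v i, h i⟩ : fsub y D)) :=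
    LinearIndependent.of_comp (fsub y D).subtype hv
  exact h1.fintype_card_le_finrank

/-- **The Iitaka dimension and the numerical dimension.** -/
theorem fdims {k : ℕ} {D : Place ℂ K → ℝ}
    (hup : ∀ A, EffR y A → ∃ C : ℕ, ∀ m : ℕ, 1 ≤ m → ∀ (r : ℕ) (f : Fin r → K),
      LinearIndependent ℂ f → (∀ i, FSec y (m • D + A) (f i)) → r ≤ C * m ^ k)
    {m0 : ℕ} (hm0 : 1 ≤ m0) {g : Fin (k + 1) → K} (hg : ∀ j, FSec y (m0 • D) (g j))
    (h0 : g 0 ≠ 0) (hind : AlgebraicIndependent ℂ (fun i : Fin k => g i.succ / g 0)) :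
    iitakaDim y D = (k : WithBot ℕ) ∧ ∀ A, EffR y A → numDim y D A = (k : EReal) := by
  classical
  have hzero : EffR y (0 : Place ℂ K → ℝ) :=
    ⟨Set.finite_empty.subset (by rintro P ⟨-, h⟩; exact h rfl), fun _ _ => le_rfl⟩
  obtain ⟨M, hM⟩ : ∃ M : ℕ, M = (k + 1) * m0 := ⟨_, rfl⟩
  have hM1 : 1 ≤ M := by
    rw [hM]
    exact Nat.mul_pos (Nat.succ_pos k) hm0
  have hlow : ∀ A, EffR y A → ∀ t : ℕ, 1 ≤ t → t ^ k ≤ ell y ((t * M) • D + A) := by
    intro A hA t ht
    obtain ⟨C, hC⟩ := hup A hA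
    have htM : 1 ≤ t * M := Nat.mul_pos ht hM1
    obtain ⟨hfin, -⟩ := finite_ell (hC (t * M) htM)
    let T := (k + 1) * t
    let b : (Fin k → Fin (t + 1)) → Fin (k + 1) → ℕ := fun a =>
      Fin.cons (T - ∑ i, (a i : ℕ)) fun i => (a i : ℕ)
    have hle : ∀ a : Fin k → Fin (t + 1), ∑ i, (a i : ℕ) ≤ T := by
      intro a
      have h1 : ∑ i, (a i : ℕ) ≤ ∑ _i : Fin k, t :=
        Finset.sum_le_sum fun i _ => Nat.lt_succ_iff.1 (a i).2
      rw [Finset.sum_const, Finset.card_univ, Fintype.card_fin, smul_eq_mul] at h1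
      exact h1.trans (Nat.mul_le_mul_right _ (Nat.le_succ k))
    have hsum : ∀ a, ∑ i, b a i = T := by
      intro a
      rw [Fin.sum_univ_succ]
      simp only [b, Fin.cons_zero, Fin.cons_succ]
      exact Nat.sub_add_cancel (hle a)
    let v : (Fin k → Fin (t + 1)) → K := fun a => ∏ i, g i ^ b a i
    have hv : ∀ a, FSec y ((t * M) • D + A) (v a) := by
      intro a
      have h1 := fsec_prod hg (b a)
      rw [hsum] at h1
      have e1 : T * m0 = t * M := by
        rw [hM]
        ring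
      rw [smul_smul, e1] at h1
      refine h1.mono fun P hP => ?_
      have := hA.2 P hP
      simp only [Pi.add_apply]
      linarith
    have hvE : ∀ a, v a = g 0 ^ T * ∏ i : Fin k, (g i.succ / g 0) ^ (a i : ℕ) := by
      intro a
      change ∏ i, g i ^ b a i = _
      rw [Fin.prod_univ_succ]
      simp only [b, Fin.cons_zero, Fin.cons_succ, div_pow, Finset.prod_div_distrib]
      have h1 : g 0 ^ T = g 0 ^ (T - ∑ i, (a i : ℕ)) * ∏ i, g 0 ^ (a i : ℕ) := by
        rw [Finset.prod_pow_eq_pow_sum, ← pow_add, Nat.sub_add_cancel (hle a)]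
      rw [h1]
      have h2 : ∏ i, g 0 ^ (a i : ℕ) ≠ 0 := Finset.prod_ne_zero_iff.2 fun i _ => pow_ne_zero _ h0
      field_simp
    have hvind : LinearIndependent ℂ v := by
      have h1 : LinearIndependent ℂ fun a : Fin k → Fin (t + 1) =>
          ∏ i : Fin k, (g i.succ / g 0) ^ (a i : ℕ) :=
        (mono_indep hind).comp (fun (a : Fin k → Fin (t + 1)) i => (a i : ℕ)) (by
          intro a a' h
          funext i
          exact Fin.ext (congrFun h i))
      have h3 := h1.map' (LinearMap.mulLeft ℂ (g 0 ^ T)) (by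
        rw [LinearMap.ker_eq_bot]
        exact fun a b hab => mul_left_cancel₀ (pow_ne_zero _ h0) hab)
      have h4 : v = (LinearMap.mulLeft ℂ (g 0 ^ T)) ∘
          fun a : Fin k → Fin (t + 1) => ∏ i : Fin k, (g i.succ / g 0) ^ (a i : ℕ) := by
        funext a
        exact hvE a
      rw [h4]
      exact h3
    have h1 := le_ell hfin hvind hv
    rw [Fintype.card_fun, Fintype.card_fin, Fintype.card_fin] at h1
    exact (Nat.pow_le_pow_left (Nat.le_succ t) k).trans h1
  constructor
  · obtain ⟨C, hC⟩ := hup 0 hzero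
    have hlow0 := hlow 0 hzero
    simp only [add_zero] at hlow0 hC
    unfold iitakaDim
    rw [if_neg]
    · congr 1
      have h1 := kappa_eq (I := Set.univ) (h := fun m => ell y (m • D)) (C := C) hM1
        (fun t ht => Set.mem_univ _) hlow0 fun m _ hm => (finite_ell (hC m hm)).2
      rw [principal_univ, inf_top_eq] at h1
      exact h1
    · intro hcon
      have h1 := hcon (1 * M) (by omega)
      have h2 := hlow0 1 le_rfl
      rw [h1, one_pow] at h2
      omega
  · intro A hA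
    obtain ⟨C, hC⟩ := hup A hA
    have h1 := nu_eq (I := Set.univ) (h := fun m => ell y (m • D + A)) (C := C) hM1
      (fun t ht => Set.mem_univ _) (hlow A hA) fun m _ hm => (finite_ell (hC m hm)).2
    rw [principal_univ, inf_top_eq] at h1
    exact h1

/-- The growth of the sections of the multiples of `D` is of order `m ^ d`, for `D` and for the sums
with effective divisors. -/
def Growth (y : Fin (N + 1) → K) (D : Place ℂ K → ℝ) (d : ℕ) : Prop :=
  (∀ A, EffR y A → ∃ C : ℕ, ∀ m : ℕ, 1 ≤ m → ∀ (r : ℕ) (f : Fin r → K),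
      LinearIndependent ℂ f → (∀ i, FSec y (m • D + A) (f i)) → r ≤ C * m ^ d) ∧
    ∃ m0 : ℕ, 1 ≤ m0 ∧ ∃ g : Fin (d + 1) → K, (∀ j, FSec y (m0 • D) (g j)) ∧ g 0 ≠ 0 ∧
      AlgebraicIndependent ℂ (fun i : Fin d => g i.succ / g 0)

theorem Growth.dims {D : Place ℂ K → ℝ} {d : ℕ} (h : Growth y D d) :
    iitakaDim y D = (d : WithBot ℕ) ∧ ∀ A, EffR y A → numDim y D A = (d : EReal) := by
  obtain ⟨h1, m0, hm0, g, hg, h0, hind⟩ := h
  exact fdims h1 hm0 hg h0 hind

theorem Growth.fin {D A : Place ℂ K → ℝ} {d : ℕ} (h : Growth y D d) (hA : EffR y A) {m : ℕ}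
    (hm : 1 ≤ m) : Module.Finite ℂ (fsub y (m • D + A)) := by
  obtain ⟨C, hC⟩ := h.1 A hA
  exact (finite_ell (hC m hm)).1

theorem ell_le_of_mul {D D' : Place ℂ K → ℝ} (hfin : Module.Finite ℂ (fsub y D')) {F : K}
    (hF : F ≠ 0) (h : ∀ f, FSec y D f → FSec y D' (f * F)) : ell y D ≤ ell y D' := by
  rw [ell_eq, ell_eq]
  let φ : fsub y D →ₗ[ℂ] fsub y D' :=
    { toFun := fun f => ⟨f.1 * F, h f.1 f.2⟩
      map_add' := fun a b => Subtype.ext (add_mul a.1 b.1 F)
      map_smul' := fun c a => Subtype.ext (by simp) }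
  have hinj : Function.Injective φ := by
    intro a b hab
    have h1 : a.1 * F = b.1 * F := congrArg Subtype.val hab
    exact Subtype.ext (mul_right_cancel₀ hF h1)
  exact LinearMap.finrank_le_finrank_of_injective hinj

/-- the dimension is the same for divisors which are linearly equivalent over `ℝ` -/
theorem Growth.le (hy : NormalModel y) {D D' : Place ℂ K → ℝ} {d d' q : ℕ} (h : Growth y D d)
    (h' : Growth y D' d') {ψ : Fin q → K} (hψ : ∀ i, ψ i ≠ 0) {s : Fin q → ℝ}
    (hDD : ∀ P, IsPrimeDivisor y P → D P = D' P + ∑ i, s i * P.ord (ψ i)) : d ≤ d' := by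
  classical
  have hzero : EffR y (0 : Place ℂ K → ℝ) :=
    ⟨Set.finite_empty.subset (by rintro P ⟨-, h⟩; exact h rfl), fun _ _ => le_rfl⟩
  obtain ⟨A, hAd⟩ : ∃ A : Place ℂ K → ℝ, A = fun P => ∑ i, |(P.ord (ψ i) : ℝ)| := ⟨_, rfl⟩
  have hA : EffR y A := by
    refine ⟨(Set.finite_iUnion fun i => finite_ord hy (hψ i)).subset ?_, fun P hP => ?_⟩
    · rintro P ⟨hP, h0⟩
      rw [hAd] at h0
      obtain ⟨i, -, hi⟩ := Finset.exists_ne_zero_of_sum_ne_zero h0
      refine Set.mem_iUnion.2 ⟨i, hP, fun h1 => hi ?_⟩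
      rw [h1]
      simp
    · rw [hAd]
      exact Finset.sum_nonneg fun i _ => abs_nonneg _
  have hord : ∀ (P : Place ℂ K) (z : Fin q → ℤ), P.ord (∏ i, ψ i ^ z i) =
      ∑ i, z i * P.ord (ψ i) := by
    intro P z
    have : ∀ T : Finset (Fin q), P.ord (∏ i ∈ T, ψ i ^ z i) = ∑ i ∈ T, z i * P.ord (ψ i) := by
      intro T
      induction T using Finset.induction_on with
      | empty => simp [P.ord_one]
      | insert i T hi ih =>
        rw [Finset.prod_insert hi, Finset.sum_insert hi, P.ord_mul (zpow_ne_zero _ (hψ i))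
          (Finset.prod_ne_zero_iff.2 fun j _ => zpow_ne_zero _ (hψ j)), ih, P.ord_zpow]
    exact this Finset.univ
  have hle : ∀ m : ℕ, 1 ≤ m → ell y (m • D + 0) ≤ ell y (m • D' + A) := by
    intro m hm
    obtain ⟨F, hF⟩ : ∃ F : K, F = ∏ i, ψ i ^ ⌊(m : ℝ) * s i⌋ := ⟨_, rfl⟩
    have hF0 : F ≠ 0 := by
      rw [hF]
      exact Finset.prod_ne_zero_iff.2 fun i _ => zpow_ne_zero _ (hψ i)
    refine ell_le_of_mul (h'.fin hA hm) hF0 fun f hf P hP => ?_
    by_cases h0 : f = 0
    · exact Or.inl (by rw [h0, zero_mul])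
    right
    have h1 := (hf P hP).resolve_left h0
    rw [P.ord_mul h0 hF0, hF, hord]
    rw [Pi.add_apply, Pi.smul_apply, Pi.zero_apply, add_zero, hDD P hP, nsmul_eq_mul, mul_add,
      Finset.mul_sum] at h1
    rw [Pi.add_apply, Pi.smul_apply, nsmul_eq_mul, hAd]
    push_cast
    have h2 : ∑ i, (m : ℝ) * (s i * P.ord (ψ i)) ≤
        ∑ i, ((⌊(m : ℝ) * s i⌋ : ℝ) * P.ord (ψ i) + |(P.ord (ψ i) : ℝ)|) := by
      refine Finset.sum_le_sum fun i _ => ?_
      have h3 : ((m : ℝ) * s i - ⌊(m : ℝ) * s i⌋) * P.ord (ψ i) ≤ |(P.ord (ψ i) : ℝ)| := by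
        have h4 : 0 ≤ (m : ℝ) * s i - ⌊(m : ℝ) * s i⌋ := sub_nonneg.2 (Int.floor_le _)
        have h5 : (m : ℝ) * s i - ⌊(m : ℝ) * s i⌋ ≤ 1 := by
          linarith [Int.lt_floor_add_one ((m : ℝ) * s i)]
        calc _ ≤ ((m : ℝ) * s i - ⌊(m : ℝ) * s i⌋) * |(P.ord (ψ i) : ℝ)| :=
              mul_le_mul_of_nonneg_left (le_abs_self _) h4
          _ ≤ 1 * |(P.ord (ψ i) : ℝ)| := mul_le_mul_of_nonneg_right h5 (abs_nonneg _)
          _ = _ := one_mul _
      nlinarith
    rw [Finset.sum_add_distrib] at h2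
    linarith
  have h1 := h.dims.2 0 hzero
  have h2 := h'.dims.2 A hA
  have h3 : numDim y D 0 ≤ numDim y D' A := by
    refine limsup_le_limsup ?_
    filter_upwards [eventually_ge_atTop 1] with m hm
    have h4 : ENNReal.log (ell y (m • D + 0) : ENNReal) ≤ ENNReal.log (ell y (m • D' + A)) :=
      ENNReal.log_le_log (by exact_mod_cast hle m hm)
    refine EReal.div_le_div_right_of_nonneg ?_ h4
    have h5 : 0 ≤ Real.log (m : ℝ) := Real.log_natCast_nonneg m
    exact_mod_cast h5
  rw [h1, h2] at h3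
  exact_mod_cast h3

end

end Pool.Agent.T2H07
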