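import Pool.Agent.R887.CorE
import Pool.Agent.R887.AbsD
import Pool.Agent.T2H06.DYN.Main

/-!
The numerical dimension and the growth of the degrees of dominant rational maps.
-/

set_option autoImplicit false

open FF Pool.Agent.W602.GT Pool.Agent.Y172 Pool.Agent.R887 Pool.Agent.T2H06.DYN

namespace Pool.Agent.T2H07.Grow

theorem mapDegree_eq {K L : Type} [Field K] [Algebra ℂ K] [Field L] [Algebra ℂ L] [Algebra K L]
    (φ : K →ₐ[ℂ] L) (hφ : ∀ f, φ f = algebraMap K L f) : mapDegree φ = Module.finrank K L := by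
  unfold mapDegree
  let e : K ≃ₐ[ℂ] φ.fieldRange := AlgEquiv.ofInjectiveField φ
  refine (Algebra.finrank_eq_of_equiv_equiv e.toRingEquiv (RingEquiv.refl L) ?_).symm
  ext x
  show φ x = algebraMap K L x
  exact hφ x

theorem mapDegree_comp {K L M : Type} [Field K] [Algebra ℂ K] [Field L] [Algebra ℂ L] [Field M]
    [Algebra ℂ M] (φ : K →ₐ[ℂ] L) (χ : L →ₐ[ℂ] M) :
    mapDegree (χ.comp φ) = mapDegree φ * mapDegree χ := by
  let _ : Algebra K L := φ.toRingHom.toAlgebra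
  let _ : Algebra L M := χ.toRingHom.toAlgebra
  let _ : Algebra K M := (χ.comp φ).toRingHom.toAlgebra
  have hst : IsScalarTower K L M := IsScalarTower.of_algebraMap_eq fun c => rfl
  rw [mapDegree_eq φ (fun _ => rfl), mapDegree_eq χ (fun _ => rfl),
    mapDegree_eq (χ.comp φ) (fun _ => rfl)]
  exact (Module.finrank_mul_finrank K L M).symm

theorem mapDegree_pow {K : Type} [Field K] [Algebra ℂ K] (g : K →ₐ[ℂ] K) (m : ℕ) :
    mapDegree (g ^ m) = mapDegree g ^ m := by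
  induction m with
  | zero =>
    rw [pow_zero, pow_zero]
    exact mapDegree_id
  | succ m ih =>
    rw [pow_succ, pow_succ, ← ih, mul_comm (mapDegree (g ^ m))]
    exact mapDegree_comp g (g ^ m)

variable {K : Type} [Field K] [Algebra ℂ K] {N n : ℕ} {y : Fin (N + 1) → K}

theorem conclude (hy : NormalModel y) (hn : Algebra.trdeg ℂ K = n) {k : ℕ} (hk : k < n)
    (h1 : NumDimLt y n 0 (k + 1)) (hkod : KodairaGe y n k) :
    KodairaEq y n k ∧ NumDimEq y n k := by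
  have key : ∀ j ≤ n, NumDimLt y n 0 j → ¬ KodairaGe y n j := by
    rintro j hj hnum ⟨m, hm, ω, E, hω, h0, hind⟩
    refine kappa_lt hy hn hj hnum hm (fun i => ?_) h0 hind
    rw [smul_zero]
    exact hω i
  exact ⟨⟨hkod, key (k + 1) hk h1⟩, h1, fun h2 => key k hk.le h2 hkod⟩

theorem grow (hy : NormalModel y) (hn : Algebra.trdeg ℂ K = n) (hcan : Canonical y n) {k : ℕ}
    (hk : k < n) {K' : Type} [Field K'] [Algebra ℂ K'] {N' : ℕ} {y' : Fin (N' + 1) → K'}
    (hy' : NormalModel y') (hn' : Algebra.trdeg ℂ K' = n) {S : Set (Place ℂ K')} (hS : S.Finite)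
    (hmap : ∀ ε : ℝ, 0 < ε → ∃ (L : Type) (_ : Field L) (_ : Algebra ℂ L)
        (φ : K →ₐ[ℂ] L) (ψ : K' →ₐ[ℂ] L), FiniteDimensional ψ.fieldRange L ∧
          UnramifiedOutside ψ y' S ∧ MultiDegreeLe φ ψ y y' (n - (k + 1)) (k + 1) ε) :
    NumDimLt y n 0 (k + 1) := by
  refine numdim2 hy hy' hn hn' (by omega) hcan.lc (by omega) hS fun ε hε => ?_
  obtain ⟨L, i1, i2, φ, ψ, h1, h2, h3⟩ := hmap ε hε
  exact ⟨L, i1, i2, φ, ψ, h1, h2, hcan.multi hy hy' hn hn' φ ψ h1 S, h3⟩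

theorem grow_self (hy : NormalModel y) (hn : Algebra.trdeg ℂ K = n) (hcan : Canonical y n) {k : ℕ}
    (hk : k < n) (g : K →ₐ[ℂ] K) (hg : ∀ ε : ℝ, 0 < ε → ∃ m : ℕ, ∀ (u : Fin (n - (k + 1)) → K)
        (v : Fin (k + 1) → K), (∀ a, IsPencil y (u a)) → (∀ a, IsPencil y (v a)) →
        (degreeOver (fun a => (g ^ m) (u a)) v : ℝ) ≤ ε * mapDegree g ^ m) :
    NumDimLt y n 0 (k + 1) := by
  refine grow hy hn hcan hk hy hn Set.finite_empty fun ε hε => ?_
  obtain ⟨m, hm⟩ := hg ε hε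
  refine ⟨K, inferInstance, inferInstance, g ^ m, AlgHom.id ℂ K, ?_, ?_, ?_⟩
  · have h1 : (AlgHom.id ℂ K).fieldRange = ⊤ := by
      ext x
      exact ⟨fun _ => trivial, fun _ => ⟨x, rfl⟩⟩
    rw [h1]
    have h2 : FiniteDimensional (⊤ : IntermediateField ℂ K) K := by
      refine ⟨⟨{1}, ?_⟩⟩
      rw [eq_top_iff]
      rintro x -
      rw [Finset.coe_singleton, Submodule.mem_span_singleton]
      exact ⟨⟨x, trivial⟩, mul_one x⟩
    exact h2
  · intro Q' _ _ Q e he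
    obtain ⟨he1, he2⟩ := he
    obtain ⟨π, hπ0, hπ⟩ := Q'.surj
    obtain ⟨π', hπ0', hπ'⟩ := Q.surj
    have h1 := he2 π'
    rw [AlgHom.id_apply, hπ'] at h1
    have h2 : (e : ℤ) ∣ 1 := ⟨_, h1⟩
    have h3 := Int.isUnit_iff.1 (isUnit_of_dvd_one h2)
    omega
  · intro u hu v hv
    rw [mapDegree_pow]
    push_cast
    exact hm u v hu hv

end Pool.Agent.T2H07.Grow
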