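import Pool.Agent.R887.CorE
import Pool.Agent.T2H07.DynB

/-!
The numerical dimension of log canonical pairs and the growth of the degrees of dominant multi-valued
rational maps.
-/

set_option autoImplicit false

open FF Pool.Agent.W602.GT Pool.Agent.Y172 Pool.Agent.R887 Pool.Agent.T2H06.DYN
open Pool.Agent.T2H07.Dyn

namespace Pool.Agent.T2H07.Grow

variable {K : Type} [Field K] [Algebra ℂ K] {N n : ℕ} {y : Fin (N + 1) → K}

theorem concludeP (hy : NormalModel y) (hn : Algebra.trdeg ℂ K = n) {Δ : Place ℂ K → ℚ} {k : ℕ}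
    (hk : k < n) (h1 : NumDimLt y n Δ (k + 1)) (hkod : LogKodairaGe y n Δ k) :
    DimensionsEq y n Δ k := by
  have key : ∀ j ≤ n, NumDimLt y n Δ j → ¬ LogKodairaGe y n Δ j := by
    rintro j hj hnum ⟨m, hm, ω, E, hω, h0, hind⟩
    exact kappa_lt hy hn hj hnum hm hω h0 hind
  exact ⟨⟨hkod, key (k + 1) hk h1⟩, h1, fun h2 => key k hk.le h2 hkod⟩

end Pool.Agent.T2H07.Grow
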