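import Mathlib

/-!
Simultaneous approximation of real numbers by rational numbers which satisfy the same linear
relations with rational coefficients.
-/

set_option autoImplicit false

open Filter Topology

namespace Pool.Agent.T2H07

theorem aind_pow {R A ι : Type*} [Field R] [Field A] [Algebra R A] {u : ι → A}
    (hu : AlgebraicIndependent R u) {m : ℕ} (hm : 1 ≤ m) :
    AlgebraicIndependent R fun i => u i ^ m := by
  have h1 := hu.polynomial_aeval_of_transcendental (f := fun _ => (Polynomial.X : Polynomial R) ^ m)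
    (fun _ => (Polynomial.transcendental_X R).pow (by omega))
  simpa using h1

/-- one approximation -/
theorem exists_approx {ι : Type} [Fintype ι] (x : ι → ℝ) {ε : ℝ} (hε : 0 < ε) :
    ∃ x' : ι → ℚ, (∀ i, |x i - x' i| < ε) ∧
      ∀ a : ι → ℚ, ∑ i, (a i : ℝ) * x i = 0 → ∑ i, a i * x' i = 0 := by
  classical
  let W : Submodule ℚ ℝ := Submodule.span ℚ (Set.range x)
  have hW : Module.Finite ℚ W := Module.Finite.span_of_finite ℚ (Set.finite_range x)
  let b := Module.finBasis ℚ W
  let w : ι → W := fun i => ⟨x i, Submodule.subset_span ⟨i, rfl⟩⟩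
  obtain ⟨C, hC⟩ : ∃ C : ℝ, C = 1 + ∑ i, ∑ α, |((b.repr (w i) α : ℚ) : ℝ)| := ⟨_, rfl⟩
  have hC1 : 1 ≤ C := by
    rw [hC]
    have : (0 : ℝ) ≤ ∑ i, ∑ α, |((b.repr (w i) α : ℚ) : ℝ)| :=
      Finset.sum_nonneg fun i _ => Finset.sum_nonneg fun α _ => abs_nonneg _
    linarith
  have hεC : 0 < ε / C := by positivity
  have happ : ∀ α, ∃ q : ℚ, |((b α : W) : ℝ) - q| < ε / C := by
    intro α
    obtain ⟨q, h1, h2⟩ := exists_rat_btwn (show ((b α : W) : ℝ) - ε / C < ((b α : W) : ℝ) by linarith)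
    refine ⟨q, ?_⟩
    rw [abs_lt]
    constructor <;> linarith
  choose θ hθ using happ
  have hxi : ∀ i, x i = ∑ α, ((b.repr (w i) α : ℚ) : ℝ) * ((b α : W) : ℝ) := by
    intro i
    have h1 := congrArg (fun v : W => (v : ℝ)) (b.sum_repr (w i))
    beta_reduce at h1
    rw [Submodule.coe_sum] at h1
    rw [show x i = ((w i : W) : ℝ) from rfl, ← h1]
    refine Finset.sum_congr rfl fun α _ => ?_
    rw [Submodule.coe_smul, Rat.smul_def]
  refine ⟨fun i => ∑ α, b.repr (w i) α * θ α, fun i => ?_, fun a ha => ?_⟩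
  · have h1 : x i - ((∑ α, b.repr (w i) α * θ α : ℚ) : ℝ) =
        ∑ α, ((b.repr (w i) α : ℚ) : ℝ) * (((b α : W) : ℝ) - θ α) := by
      rw [hxi i]
      push_cast
      rw [← Finset.sum_sub_distrib]
      refine Finset.sum_congr rfl fun α _ => ?_
      ring
    rw [h1]
    have h2 : |∑ α, ((b.repr (w i) α : ℚ) : ℝ) * (((b α : W) : ℝ) - θ α)| ≤
        ∑ α, |((b.repr (w i) α : ℚ) : ℝ)| * (ε / C) := by
      refine (Finset.abs_sum_le_sum_abs _ _).trans (Finset.sum_le_sum fun α _ => ?_)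
      rw [abs_mul]
      exact mul_le_mul_of_nonneg_left (hθ α).le (abs_nonneg _)
    refine lt_of_le_of_lt h2 ?_
    rw [← Finset.sum_mul]
    have h3 : ∑ α, |((b.repr (w i) α : ℚ) : ℝ)| ≤ ∑ i, ∑ α, |((b.repr (w i) α : ℚ) : ℝ)| :=
      Finset.single_le_sum (f := fun i => ∑ α, |((b.repr (w i) α : ℚ) : ℝ)|)
        (fun i _ => Finset.sum_nonneg fun α _ => abs_nonneg _) (Finset.mem_univ i)
    have h4 : ∑ α, |((b.repr (w i) α : ℚ) : ℝ)| < C := by
      rw [hC]
      linarith
    calc (∑ α, |((b.repr (w i) α : ℚ) : ℝ)|) * (ε / C) < C * (ε / C) :=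
          mul_lt_mul_of_pos_right h4 hεC
      _ = ε := by field_simp
  · have h1 : ∑ i, a i • w i = 0 := by
      apply Subtype.ext
      rw [Submodule.coe_sum]
      simp only [Submodule.coe_smul, Rat.smul_def, ZeroMemClass.coe_zero]
      exact ha
    have h2 : ∀ α, ∑ i, a i * b.repr (w i) α = 0 := by
      intro α
      have h3 := congrArg (fun v : W => b.repr v α) h1
      beta_reduce at h3
      rw [map_sum, Finsupp.finsetSum_apply, map_zero, Finsupp.zero_apply] at h3
      rw [← h3]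
      refine Finset.sum_congr rfl fun i _ => ?_
      rw [map_smul, Finsupp.smul_apply, smul_eq_mul]
    calc ∑ i, a i * ∑ α, b.repr (w i) α * θ α
        = ∑ α, (∑ i, a i * b.repr (w i) α) * θ α := by
          simp only [Finset.mul_sum, Finset.sum_mul]
          rw [Finset.sum_comm]
          refine Finset.sum_congr rfl fun α _ => Finset.sum_congr rfl fun i _ => ?_
          ring
      _ = 0 := by
          refine Finset.sum_eq_zero fun α _ => ?_
          rw [h2 α, zero_mul]

/-- a sequence of approximations -/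
theorem exists_approx_seq {ι : Type} [Fintype ι] (x : ι → ℝ) :
    ∃ x' : ℕ → ι → ℚ, (∀ i, Tendsto (fun m => ((x' m i : ℚ) : ℝ)) atTop (𝓝 (x i))) ∧
      ∀ m, ∀ a : ι → ℚ, ∑ i, (a i : ℝ) * x i = 0 → ∑ i, a i * x' m i = 0 := by
  choose x' h1 h2 using fun m : ℕ => exists_approx x (ε := 1 / ((m : ℝ) + 1)) (by positivity)
  refine ⟨x', fun i => ?_, h2⟩
  rw [tendsto_iff_dist_tendsto_zero]
  refine squeeze_zero (fun m => dist_nonneg) (fun m => ?_) tendsto_one_div_add_atTop_nhds_zero_nat
  rw [Real.dist_eq, abs_sub_comm]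
  exact (h1 m i).le

end Pool.Agent.T2H07
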