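import Pool.Agent.T2H07.Rat
import Pool.Agent.T2H07.FDim
import Pool.Agent.T2H41.GA
import Pool.Agent.Y191.CanA

/-!
Real boundaries `B` in the real convex hull of rational boundaries, with `K_X + B` linearly equivalent
over `ℝ` to an effective real divisor `E`: the Iitaka dimension of `E` is equal to its numerical
dimension.
-/

set_option autoImplicit false
set_option linter.overlappingInstances false
set_option linter.unusedSectionVars false

open FF Filter Topology IntermediateField Pool.Agent.W602.GT Pool.Agent.W603.LV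
  Pool.Agent.W619.PQ Pool.Agent.W619.TW Pool.Agent.W619.Y Pool.Agent.Y172 Pool.Agent.Y191
  Pool.Agent.Y174 Pool.Agent.R885 Pool.Agent.T2H41

namespace Pool.Agent.T2H07

section

variable {K : Type} [Field K] [Algebra ℂ K] {N n : ℕ} {y : Fin (N + 1) → K}

/-- the data of the class -/
def CData (y : Fin (N + 1) → K) (n : ℕ) (Δ : Place ℂ K → ℚ) : Prop :=
  ∃ β : Place ℂ K → ℚ, (R885.N.PosB ℂ K n (fun P => ((β P : ℚ) : ℝ)) ∨
    R885.N.NegB ℂ K n (fun P => ((β P : ℚ) : ℝ))) ∧ (∀ P, IsPrimeDivisor y P → β P ≤ Δ P) ∧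
    ∀ Q, Divisorial n Q → LogDisc y n Δ Q (1 - β Q)

/-- a uniform constant -/
theorem exists_cst {u t : Place ℂ K → ℝ} (hu : IsRDiv y u) (ht0 : ∀ P, IsPrimeDivisor y P → 0 ≤ t P)
    (ht : ∀ P, IsPrimeDivisor y P → u P ≠ 0 → 0 < t P) :
    ∃ s : ℕ, 1 ≤ s ∧ ∀ P, IsPrimeDivisor y P → u P ≤ s * t P := by
  classical
  have hfin : {P | IsPrimeDivisor y P ∧ u P ≠ 0}.Finite := hu
  refine ⟨1 + ∑ P ∈ hfin.toFinset, ⌈u P / t P⌉₊, by omega, fun P hP => ?_⟩
  by_cases h0 : u P = 0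
  · rw [h0]
    exact mul_nonneg (Nat.cast_nonneg _) (ht0 P hP)
  have h1 := ht P hP h0
  have h2 : u P / t P ≤ (⌈u P / t P⌉₊ : ℝ) := Nat.le_ceil _
  have h3 : ⌈u P / t P⌉₊ ≤ 1 + ∑ Q ∈ hfin.toFinset, ⌈u Q / t Q⌉₊ := by
    have := Finset.single_le_sum (f := fun Q => ⌈u Q / t Q⌉₊) (fun _ _ => Nat.zero_le _)
      (hfin.mem_toFinset.2 ⟨hP, h0⟩)
    beta_reduce at this
    omega
  have h4 : (⌈u P / t P⌉₊ : ℝ) ≤ ((1 + ∑ Q ∈ hfin.toFinset, ⌈u Q / t Q⌉₊ : ℕ) : ℝ) := by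
    exact_mod_cast h3
  exact (div_le_iff₀ h1).1 (h2.trans h4)

/-- the ratio of two forms of the same degree -/
theorem ratio_eq {m a b : ℕ} {ω ω' : (Fin n → Derivation ℂ K K) → K} {mω mω' : ℕ}
    (hω : IsPluri mω ω) (hω' : IsPluri mω' ω') (hab : mω * a = m) (hab' : mω' * b = m)
    {D E : Fin n → Derivation ℂ K K} (hD : IsFrame D) (h0 : ω' D ≠ 0) (h0' : ω' E ≠ 0)
    (hm : 1 ≤ m) : ω E ^ a / ω' E ^ b = ω D ^ a / ω' D ^ b := by
  choose C hC using fun i => hD (E i)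
  have e1 : E = fun i => ∑ j, Matrix.of C i j • D j := funext hC
  have h1 : ω E = (Matrix.of C).det ^ mω * ω D := by
    conv_lhs => rw [e1]
    exact hω _ _
  have h2 : ω' E = (Matrix.of C).det ^ mω' * ω' D := by
    conv_lhs => rw [e1]
    exact hω' _ _
  have hdet : (Matrix.of C).det ≠ 0 := by
    intro h3
    rw [h3, zero_pow (by
      rintro rfl
      rw [zero_mul] at hab'
      omega), zero_mul] at h2
    exact h0' h2
  rw [h1, h2, mul_pow, mul_pow, ← pow_mul, ← pow_mul, hab, hab',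
    mul_div_mul_left _ _ (pow_ne_zero _ hdet)]

/-- the rational case, and equality of the supports -/
theorem core (htr : Algebra.trdeg ℂ K = (n : ℕ)) (hy : NormalModel y) {Δ : Place ℂ K → ℚ}
    (hcls : CData y n Δ) {m1 : ℕ} (hm1 : 1 ≤ m1) {ω₀ : (Fin n → Derivation ℂ K K) → K}
    (hω₀ : IsPluri m1 ω₀) (hω₀0 : ω₀ ≠ 0) {e : Place ℂ K → ℚ}
    (he : ∀ P, IsPrimeDivisor y P → OrdEq P ω₀ (e P - m1 * Δ P)) {E : Place ℂ K → ℝ}
    (hE : EffR y E) (he0 : ∀ P, IsPrimeDivisor y P → 0 ≤ e P)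
    (hsupp : ∀ P, IsPrimeDivisor y P → (E P = 0 ↔ e P = 0)) :
    ∃ d : ℕ, d ≤ n ∧ Growth y E d := by
  classical
  obtain ⟨β, hPN, hβ, hdisc⟩ := hcls
  have heR : ∀ P, IsPrimeDivisor y P → (0 : ℝ) ≤ (e P : ℝ) := fun P hP => by
    exact_mod_cast he0 P hP
  -- comparison of `E` and `e`
  obtain ⟨s1, hs1, hs1E⟩ := exists_cst (y := y) (u := E) (t := fun P => (e P : ℝ)) hE.1 heR
    (fun P hP h0 => lt_of_le_of_ne (heR P hP) fun h1 => h0 ((hsupp P hP).2 (by
      have : (e P : ℝ) = 0 := h1.symm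
      exact_mod_cast this)))
  have hediv : IsRDiv y (fun P => (e P : ℝ)) := by
    refine (show {P | IsPrimeDivisor y P ∧ E P ≠ 0}.Finite from hE.1).subset ?_
    rintro P ⟨hP, h0⟩
    exact ⟨hP, fun h1 => h0 (by
      have := (hsupp P hP).1 h1
      beta_reduce
      rw [this]
      simp)⟩
  obtain ⟨s2, hs2, hs2E⟩ := exists_cst (y := y) (u := fun P => (e P : ℝ)) (t := E) hediv hE.2
    (fun P hP h0 => lt_of_le_of_ne (hE.2 P hP) fun h1 => h0 (by
      have := (hsupp P hP).1 h1.symm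
      beta_reduce
      rw [this]
      simp))
  -- the section
  have hsec : IsSection y n m1 (m1 • Δ) ω₀ := by
    refine ⟨hω₀, fun P hP => (he P hP).1.mono ?_⟩
    rw [Pi.smul_apply, nsmul_eq_mul]
    linarith [he0 P hP]
  obtain ⟨d, hdn, h1, h2⟩ := GA.pos_of_section htr hy hPN hdisc hm1 hω₀0 hsec
  obtain ⟨x, F, hx, hF⟩ := exists_crd htr
  have hfr : IsFrame F := fun G =>
    ⟨fun j => G (x j), (Pool.Agent.W73.PG.PULL.expand x hx F hF G).symm⟩
  have hω₀F : ω₀ F ≠ 0 := fun h0 => hω₀0 (pluri_zero hfr hω₀ h0)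
  obtain ⟨m0, hm0, ω', hω', D', hD', hind⟩ := h1
  have hω'p : ∀ j, IsPluri m0 (ω' j) := fun j => (hω' j).1
  have hfrD : IsFrame D' := frame_of_ne hfr hm0 (hω'p 0) (hD' 0)
  have hω₀D' : ω₀ D' ≠ 0 := fun h0 => hω₀0 (pluri_zero hfrD hω₀ h0)
  refine ⟨d, hdn, ?_, m0 * s2, Nat.mul_pos hm0 hs2,
    fun j => ω' j D' ^ m1 / ω₀ D' ^ m0, ?_,
    div_ne_zero (pow_ne_zero _ (hD' 0)) (pow_ne_zero _ hω₀D'), ?_⟩
  · -- the upper bound
    intro A hA
    obtain ⟨A', hA'd⟩ : ∃ A' : Place ℂ K → ℚ, A' = fun P => (⌈A P⌉₊ : ℚ) := ⟨_, rfl⟩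
    have hA' : Effective y A' := by
      refine ⟨fun P hP => ?_, ?_⟩
      · rw [hA'd]
        exact Nat.cast_nonneg _
      · refine (show {P | IsPrimeDivisor y P ∧ A P ≠ 0}.Finite from hA.1).subset ?_
        rintro P ⟨hP, h0⟩
        refine ⟨hP, fun h3 => h0 ?_⟩
        rw [hA'd]
        beta_reduce
        rw [h3]
        simp
    have hAA' : ∀ P, A P ≤ (A' P : ℝ) := by
      intro P
      rw [hA'd]
      have := Nat.le_ceil (A P)
      push_cast
      exact this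
    obtain ⟨C, hC⟩ := _root_.Pool.Agent.R885.N.sec_bound hy hdisc h2 hfr hA'
    refine ⟨C * (m1 * s1) ^ d, fun m hm r f hf hfs => ?_⟩
    have h3 := hC ((m1 * s1) * m) (Nat.mul_pos (Nat.mul_pos hm1 hs1) hm) r
      (fun l => f l * ω₀ F ^ (s1 * m)) (by
      have h4 := hf.map' (LinearMap.mulRight ℂ (ω₀ F ^ (s1 * m))) (by
        rw [LinearMap.ker_eq_bot]
        exact fun a b hab => mul_right_cancel₀ (pow_ne_zero _ hω₀F) hab)
      exact h4) fun l => ⟨fun D => f l * ω₀ D ^ (s1 * m), ⟨?_, ?_⟩, rfl⟩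
    · refine h3.trans (le_of_eq ?_)
      ring
    · intro B D
      have h5 := hω₀ B D
      beta_reduce
      rw [h5, mul_pow, ← pow_mul]
      have e1 : m1 * s1 * m = m1 * (s1 * m) := by ring
      rw [e1]
      ring
    · intro P hP E' hE'
      beta_reduce
      by_cases hf0 : f l = 0
      · exact Or.inl (by rw [hf0, zero_mul])
      by_cases hω₀' : ω₀ E' = 0
      · exact Or.inl (by rw [hω₀', zero_pow (Nat.mul_ne_zero (by omega) (by omega)), mul_zero])
      right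
      rw [P.ord_mul hf0 (pow_ne_zero _ hω₀'), P.ord_pow]
      have h4 := (hfs l P hP).resolve_left hf0
      have h5 := ((he P hP).1 E' hE').resolve_left hω₀'
      have h5' : ((e P : ℝ) - m1 * (Δ P : ℝ)) ≤ ((P.ord (ω₀ E') : ℤ) : ℝ) := by
        exact_mod_cast h5
      have hmR : (0 : ℝ) ≤ m := Nat.cast_nonneg _
      have hsmR : (0 : ℝ) ≤ s1 * m := by positivity
      have h6 := mul_le_mul_of_nonneg_left h5' hsmR
      have h7 := mul_le_mul_of_nonneg_left (hs1E P hP) hmR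
      have h9 := hAA' P
      rw [Pi.add_apply, Pi.smul_apply, nsmul_eq_mul] at h4
      have h10 : -((((m1 * s1) * m : ℕ) : ℝ) * (Δ P : ℝ) + (A' P : ℝ)) ≤
          ((P.ord (f l) + (s1 * m : ℕ) * P.ord (ω₀ E') : ℤ) : ℝ) := by
        push_cast
        beta_reduce at h7
        nlinarith
      rw [Pi.add_apply, Pi.smul_apply, nsmul_eq_mul]
      exact_mod_cast h10
  · -- the sections
    intro j P hP
    beta_reduce
    obtain ⟨hge, E', hE', hE'0, hE'1⟩ := he P hP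
    have h3 := ratio_eq (m := m0 * m1) (a := m1) (b := m0) (hω'p j) hω₀ rfl (mul_comm _ _) hfrD
      hω₀D' hE'0 (Nat.mul_pos hm0 hm1)
    rw [← h3]
    by_cases h4 : ω' j E' = 0
    · left
      rw [h4, zero_pow (by omega), zero_div]
    right
    rw [P.ord_div (pow_ne_zero _ h4) (pow_ne_zero _ hE'0), P.ord_pow, P.ord_pow]
    rcases (hω' j).2 P (hP.divisorial hy htr) E' hE' with h6 | ⟨t, ht, ht0, h6⟩
    · exact absurd h6 h4
    rw [Nat.cast_zero, zero_mul, zero_sub] at h6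
    beta_reduce at h6
    have h7 : (β P : ℝ) ≤ Δ P := by exact_mod_cast hβ P hP
    have h8 := mul_le_mul_of_nonneg_left h7 (Nat.cast_nonneg (α := ℝ) m0)
    have h9 : ((P.ord (ω₀ E') : ℤ) : ℝ) = (e P : ℝ) - m1 * (Δ P : ℝ) := by
      have := congrArg (fun z : ℚ => (z : ℝ)) hE'1
      push_cast at this
      exact this
    have h10 := mul_le_mul_of_nonneg_left (hs2E P hP) (Nat.cast_nonneg (α := ℝ) m0)
    beta_reduce at h10
    rw [Pi.smul_apply, nsmul_eq_mul]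
    push_cast
    rw [h9]
    have h11 : -((m0 : ℝ) * Δ P) ≤ ((P.ord (ω' j E') : ℤ) : ℝ) := by linarith
    have h12 := mul_le_mul_of_nonneg_left h11 (Nat.cast_nonneg (α := ℝ) m1)
    nlinarith
  · have h3 : (fun i : Fin d => (ω' i.succ D' ^ m1 / ω₀ D' ^ m0) / (ω' 0 D' ^ m1 / ω₀ D' ^ m0)) =
        fun i => (ω' i.succ D' / ω' 0 D') ^ m1 := by
      funext i
      rw [div_div_div_cancel_right₀ (pow_ne_zero _ hω₀D'), div_pow]
    rw [h3]
    exact aind_pow hind hm1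

/-- the ratio of two `n`-forms -/
theorem ratio_ord (htr : Algebra.trdeg ℂ K = (n : ℕ)) {ω ω' : (Fin n → Derivation ℂ K K) → K}
    (hω : IsPluri 1 ω) (hω' : IsPluri 1 ω') (h0 : ω ≠ 0) (h0' : ω' ≠ 0) :
    ∃ g : K, g ≠ 0 ∧ ∀ (P : Place ℂ K) (a a' : ℤ), OrdEq P ω a → OrdEq P ω' a' →
      a' = a + P.ord g := by
  classical
  obtain ⟨x, F, hx, hF⟩ := exists_crd htr
  have hfr : IsFrame F := fun G =>
    ⟨fun j => G (x j), (Pool.Agent.W73.PG.PULL.expand x hx F hF G).symm⟩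
  have hωF : ω F ≠ 0 := fun h => h0 (pluri_zero hfr hω h)
  have hωF' : ω' F ≠ 0 := fun h => h0' (pluri_zero hfr hω' h)
  refine ⟨ω' F / ω F, div_ne_zero hωF' hωF, fun P a a' ha ha' => ?_⟩
  have key : ∀ {θ θ' : (Fin n → Derivation ℂ K K) → K} {b b' : ℤ}, IsPluri 1 θ → IsPluri 1 θ' →
      θ F ≠ 0 → θ' F ≠ 0 → OrdEq P θ b → OrdEq P θ' b' → b ≤ b' - P.ord (θ' F / θ F) := by
    intro θ θ' b b' hθ hθ' h1 h2 hb hb'
    obtain ⟨-, G, hG, hG0, hG1⟩ := hb'
    have h3 := ratio_eq (m := 1) (a := 1) (b := 1) hθ hθ' rfl rfl hfr h2 hG0 le_rfl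
    rw [pow_one, pow_one, pow_one, pow_one] at h3
    have h4 : θ G ≠ 0 := by
      intro h5
      rw [h5, zero_div] at h3
      exact div_ne_zero h1 h2 h3.symm
    have h5 := (hb.1 G hG).resolve_left h4
    have h6 := congrArg P.ord h3
    rw [P.ord_div h4 hG0, P.ord_div h1 h2] at h6
    rw [P.ord_div h2 h1]
    have h7 : P.ord (θ' G) = b' := by exact_mod_cast hG1
    have h8 : b ≤ P.ord (θ G) := by exact_mod_cast h5
    omega
  have h1 := key hω hω' hωF hωF' ha ha'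
  have h2 := key hω' hω hωF' hωF ha' ha
  rw [P.ord_div hωF hωF'] at h2
  rw [P.ord_div hωF' hωF] at h1 ⊢
  omega

/-- `K_X + B` is linearly equivalent over `ℝ` to the real divisor `E`: there are a rational `n`-form
`ω ≠ 0`, rational functions `φ i ≠ 0` and real numbers `r i` with
`E = div ω + B + ∑ i, r i * div (φ i)`. -/
def RLin (y : Fin (N + 1) → K) (n : ℕ) (B E : Place ℂ K → ℝ) : Prop :=
  ∃ (ω : (Fin n → Derivation ℂ K K) → K) (l : ℕ) (φ : Fin l → K) (r : Fin l → ℝ),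
    IsPluri 1 ω ∧ ω ≠ 0 ∧ (∀ i, φ i ≠ 0) ∧ ∀ P, IsPrimeDivisor y P → ∃ a : ℤ, OrdEq P ω a ∧
      E P = a + B P + ∑ i, r i * P.ord (φ i)

theorem RLin.diff (htr : Algebra.trdeg ℂ K = (n : ℕ)) {B E E' : Place ℂ K → ℝ}
    (h : RLin y n B E) (h' : RLin y n B E') : ∃ (q : ℕ) (ψ : Fin q → K) (s : Fin q → ℝ),
      (∀ i, ψ i ≠ 0) ∧ ∀ P, IsPrimeDivisor y P → E P = E' P + ∑ i, s i * P.ord (ψ i) := by
  obtain ⟨ω, l, φ, r, hω, hω0, hφ, hP⟩ := h
  obtain ⟨ω', l', φ', r', hω', hω0', hφ', hP'⟩ := h'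
  obtain ⟨g, hg, hgP⟩ := ratio_ord htr hω' hω hω0' hω0
  refine ⟨1 + (l + l'), Fin.append (fun _ => g) (Fin.append φ φ'),
    Fin.append (fun _ => 1) (Fin.append r fun i => -r' i), fun i => ?_, fun P hPp => ?_⟩
  · refine Fin.addCases (fun i => ?_) (fun i => ?_) i
    · rw [Fin.append_left]
      exact hg
    · rw [Fin.append_right]
      refine Fin.addCases (fun i => ?_) (fun i => ?_) i
      · rw [Fin.append_left]
        exact hφ i
      · rw [Fin.append_right]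
        exact hφ' i
  · obtain ⟨a, ha, hE⟩ := hP P hPp
    obtain ⟨a', ha', hE'⟩ := hP' P hPp
    have h1 := hgP P a' a ha' ha
    rw [hE, hE', h1, Fin.sum_univ_add, Fin.sum_univ_add]
    simp only [Fin.append_left, Fin.append_right, Finset.univ_unique, Finset.sum_singleton, one_mul,
      neg_mul, Finset.sum_neg_distrib]
    push_cast
    ring

/-- **Real boundaries.** -/
theorem mainR (htr : Algebra.trdeg ℂ K = (n : ℕ)) (hy : NormalModel y) {s : ℕ}
    {Δ : Fin s → Place ℂ K → ℚ}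
    (hcls : ∀ c : Fin s → ℚ, (∀ i, 0 ≤ c i) → ∑ i, c i = 1 →
      CData y n (fun P => ∑ i, c i * Δ i P)) {t : Fin s → ℝ} (ht : ∀ i, 0 ≤ t i)
    (ht1 : ∑ i, t i = 1) {B : Place ℂ K → ℝ}
    (hB : ∀ P, IsPrimeDivisor y P → B P = ∑ i, t i * Δ i P) {E : Place ℂ K → ℝ} (hE : EffR y E)
    (hBE : RLin y n B E) :
    ∃ d : ℕ, d ≤ n ∧ Growth y E d := by
  classical
  obtain ⟨ω, l, φ, r, hω, hω0, hφ, hP⟩ := hBE
  have hch : ∀ P, ∃ a : ℤ, IsPrimeDivisor y P → OrdEq P ω a ∧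
      E P = a + B P + ∑ i, r i * P.ord (φ i) := by
    intro P
    by_cases h : IsPrimeDivisor y P
    · obtain ⟨a, ha⟩ := hP P h
      exact ⟨a, fun _ => ha⟩
    · exact ⟨0, fun h' => absurd h' h⟩
  choose a ha using hch
  -- the real point and the linear forms
  let x : Unit ⊕ (Fin s ⊕ Fin l) → ℝ := Sum.elim (fun _ => 1) (Sum.elim t r)
  let L : Place ℂ K → (Unit ⊕ (Fin s ⊕ Fin l) → ℚ) := fun P =>
    Sum.elim (fun _ => (a P : ℚ)) (Sum.elim (fun i => Δ i P) fun i => (P.ord (φ i) : ℚ))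
  have hLx : ∀ P, IsPrimeDivisor y P → ∑ i, ((L P i : ℚ) : ℝ) * x i = E P := by
    intro P hPp
    rw [(ha P hPp).2, hB P hPp, Fintype.sum_sum_type, Fintype.sum_sum_type]
    simp only [L, x, Sum.elim_inl, Sum.elim_inr, Finset.univ_unique, Finset.sum_singleton, mul_one]
    push_cast
    rw [add_assoc]
    congr 2
    · exact Finset.sum_congr rfl fun i _ => mul_comm _ _
    · exact Finset.sum_congr rfl fun i _ => mul_comm _ _
  obtain ⟨x', hx', hrel⟩ := exists_approx_seq x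
  have hfin : {P | IsPrimeDivisor y P ∧ E P ≠ 0}.Finite := hE.1
  have hev1 : ∀ᶠ m in atTop, ∀ P ∈ {P | IsPrimeDivisor y P ∧ E P ≠ 0},
      0 < ∑ i, L P i * x' m i := by
    rw [Filter.eventually_all_finite hfin]
    rintro P ⟨hPp, hP0⟩
    have h1 : Tendsto (fun m => ∑ i, ((L P i : ℚ) : ℝ) * ((x' m i : ℚ) : ℝ)) atTop
        (𝓝 (∑ i, ((L P i : ℚ) : ℝ) * x i)) :=
      tendsto_finsetSum _ fun i _ => (hx' i).const_mul _
    rw [hLx P hPp] at h1
    have h2 : 0 < E P := lt_of_le_of_ne (hE.2 P hPp) (Ne.symm hP0)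
    filter_upwards [h1.eventually_const_lt h2] with m hm
    exact_mod_cast hm
  have hev2 : ∀ᶠ m in atTop, 0 < x' m (Sum.inl ()) := by
    have h1 := hx' (Sum.inl ())
    filter_upwards [h1.eventually_const_lt (show (0 : ℝ) < x (Sum.inl ()) by simp [x])] with m hm
    exact_mod_cast hm
  have hev3 : ∀ᶠ m in atTop, ∀ i : Fin s, 0 ≤ x' m (Sum.inr (Sum.inl i)) := by
    rw [Filter.eventually_all]
    intro i
    rcases (ht i).eq_or_lt with h0 | h0
    · refine Filter.Eventually.of_forall fun m => ?_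
      have h1 := hrel m (Pi.single (Sum.inr (Sum.inl i)) 1) (by
        rw [Finset.sum_eq_single (Sum.inr (Sum.inl i))]
        · simp [x, ← h0]
        · intro j _ hj
          simp [Pi.single_eq_of_ne hj]
        · intro h
          exact absurd (Finset.mem_univ _) h)
      rw [Finset.sum_eq_single (Sum.inr (Sum.inl i))] at h1
      · rw [Pi.single_eq_same, one_mul] at h1
        exact h1.ge
      · intro j _ hj
        simp [Pi.single_eq_of_ne hj]
      · intro h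
        exact absurd (Finset.mem_univ _) h
    · have h1 := hx' (Sum.inr (Sum.inl i))
      filter_upwards [h1.eventually_const_lt (show (0 : ℝ) < x (Sum.inr (Sum.inl i)) from h0)]
        with m hm
      have : (0 : ℚ) < x' m (Sum.inr (Sum.inl i)) := by exact_mod_cast hm
      exact this.le
  obtain ⟨m, h1, h2, h3⟩ := (hev1.and (hev2.and hev3)).exists
  obtain ⟨z0, hz0⟩ : ∃ z0, z0 = x' m (Sum.inl ()) := ⟨_, rfl⟩
  rw [← hz0] at h2
  let c : Fin s → ℚ := fun i => x' m (Sum.inr (Sum.inl i)) / z0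
  let ρ : Fin l → ℚ := fun i => x' m (Sum.inr (Sum.inr i)) / z0
  have hc : ∀ i, 0 ≤ c i := fun i => div_nonneg (h3 i) h2.le
  have hc1 : ∑ i, c i = 1 := by
    have h4 := hrel m (Sum.elim (fun _ => -1) (Sum.elim (fun _ => 1) fun _ => 0)) (by
      rw [Fintype.sum_sum_type, Fintype.sum_sum_type]
      simp [x, ht1])
    rw [Fintype.sum_sum_type, Fintype.sum_sum_type] at h4
    simp only [Sum.elim_inl, Sum.elim_inr, Finset.univ_unique, Finset.sum_singleton, one_mul,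
      zero_mul, Finset.sum_const_zero, add_zero] at h4
    have h5 : ∑ i, x' m (Sum.inr (Sum.inl i)) = z0 := by
      rw [hz0]
      have h6 : (default : Unit) = () := rfl
      rw [h6] at h4
      linarith
    change ∑ i, x' m (Sum.inr (Sum.inl i)) / z0 = 1
    rw [← Finset.sum_div, h5, div_self h2.ne']
  -- the rational pair
  obtain ⟨Δ', hΔ'⟩ : ∃ Δ' : Place ℂ K → ℚ, Δ' = fun P => ∑ i, c i * Δ i P := ⟨_, rfl⟩
  have hcl := hcls c hc hc1
  rw [← hΔ'] at hcl
  -- common denominators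
  obtain ⟨m1, hm1, z, hz⟩ : ∃ m1 : ℕ, 1 ≤ m1 ∧ ∃ z : Fin l → ℤ, ∀ i, (z i : ℚ) = m1 * ρ i := by
    refine ⟨∏ i, (ρ i).den, Nat.one_le_iff_ne_zero.2 (Finset.prod_ne_zero_iff.2 fun i _ =>
      (ρ i).den_nz), fun i => (∏ j ∈ Finset.univ.erase i, ((ρ j).den : ℤ)) * (ρ i).num,
      fun i => ?_⟩
    push_cast
    rw [← Finset.mul_prod_erase Finset.univ (fun j => ((ρ j).den : ℚ)) (Finset.mem_univ i)]
    have h4 : (ρ i) * ((ρ i).den : ℚ) = (ρ i).num := Rat.mul_den_eq_num (ρ i)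
    rw [← h4]
    ring
  obtain ⟨ω₀, hω₀d⟩ : ∃ ω₀ : (Fin n → Derivation ℂ K K) → K,
      ω₀ = fun D => ω D ^ m1 * ∏ i, φ i ^ z i := ⟨_, rfl⟩
  have hprod : ∏ i, φ i ^ z i ≠ 0 := Finset.prod_ne_zero_iff.2 fun i _ => zpow_ne_zero _ (hφ i)
  have hω₀ : IsPluri m1 ω₀ := by
    intro A D
    rw [hω₀d]
    beta_reduce
    rw [hω A D, pow_one, mul_pow]
    ring
  have hω₀0 : ω₀ ≠ 0 := by
    intro h4
    apply hω0
    funext D
    have h5 := congrFun h4 D
    rw [hω₀d] at h5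
    have h6 : ω D ^ m1 * ∏ i, φ i ^ z i = 0 := h5
    rcases mul_eq_zero.1 h6 with h7 | h7
    · exact (pow_eq_zero_iff (by omega)).1 h7
    · exact absurd h7 hprod
  -- its divisor
  obtain ⟨e, hed⟩ : ∃ e : Place ℂ K → ℚ, e = fun P => m1 * ((∑ i, L P i * x' m i) / z0) :=
    ⟨_, rfl⟩
  have hm1Q : (0 : ℚ) < m1 := by exact_mod_cast hm1
  have hprodord : ∀ P : Place ℂ K, P.ord (∏ i, φ i ^ z i) = ∑ i, z i * P.ord (φ i) := by
    intro P
    have : ∀ T : Finset (Fin l), P.ord (∏ i ∈ T, φ i ^ z i) = ∑ i ∈ T, z i * P.ord (φ i) := by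
      intro T
      induction T using Finset.induction_on with
      | empty => simp [P.ord_one]
      | insert i T hi ih =>
        rw [Finset.prod_insert hi, Finset.sum_insert hi, P.ord_mul (zpow_ne_zero _ (hφ i))
          (Finset.prod_ne_zero_iff.2 fun j _ => zpow_ne_zero _ (hφ j)), ih, P.ord_zpow]
    exact this Finset.univ
  have heq : ∀ P, e P - m1 * Δ' P = m1 * a P + ∑ i, (z i : ℚ) * P.ord (φ i) := by
    intro P
    rw [hed, hΔ']
    beta_reduce
    rw [Fintype.sum_sum_type, Fintype.sum_sum_type]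
    simp only [L, Sum.elim_inl, Sum.elim_inr, Finset.univ_unique, Finset.sum_singleton]
    have h6 : (default : Unit) = () := rfl
    rw [h6, ← hz0]
    have h7 : ∑ i, Δ i P * x' m (Sum.inr (Sum.inl i)) = z0 * ∑ i, c i * Δ i P := by
      rw [Finset.mul_sum]
      refine Finset.sum_congr rfl fun i _ => ?_
      change _ = z0 * (x' m (Sum.inr (Sum.inl i)) / z0 * Δ i P)
      field_simp
    have h8 : ∑ i, (P.ord (φ i) : ℚ) * x' m (Sum.inr (Sum.inr i)) =
        z0 * ∑ i, ρ i * P.ord (φ i) := by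
      rw [Finset.mul_sum]
      refine Finset.sum_congr rfl fun i _ => ?_
      change _ = z0 * (x' m (Sum.inr (Sum.inr i)) / z0 * P.ord (φ i))
      field_simp
    have h9 : ∑ i, (z i : ℚ) * P.ord (φ i) = m1 * ∑ i, ρ i * P.ord (φ i) := by
      rw [Finset.mul_sum]
      refine Finset.sum_congr rfl fun i _ => ?_
      rw [hz i]
      ring
    rw [h7, h8, h9]
    field_simp
    ring
  have hord : ∀ P, IsPrimeDivisor y P → OrdEq P ω₀ (e P - m1 * Δ' P) := by
    intro P hPp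
    obtain ⟨hge, F, hF, hF0, hF1⟩ := (ha P hPp).1
    rw [heq P]
    have h4 : ∀ D, ω D ≠ 0 → P.ord (ω₀ D) = m1 * P.ord (ω D) + ∑ i, z i * P.ord (φ i) := by
      intro D hD
      rw [hω₀d]
      beta_reduce
      rw [P.ord_mul (pow_ne_zero _ hD) hprod, P.ord_pow, hprodord P]
    refine ⟨fun D hD => ?_, F, hF, ?_, ?_⟩
    · by_cases hD0 : ω D = 0
      · left
        rw [hω₀d]
        beta_reduce
        rw [hD0, zero_pow (by omega), zero_mul]
      right
      have h5 := (hge D hD).resolve_left hD0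
      rw [h4 D hD0]
      push_cast
      have h6 := mul_le_mul_of_nonneg_left h5 hm1Q.le
      linarith
    · rw [hω₀d]
      exact mul_ne_zero (pow_ne_zero _ hF0) hprod
    · rw [h4 F hF0]
      push_cast
      rw [hF1]
  have hval : ∀ P, IsPrimeDivisor y P → (E P ≠ 0 → 0 < ∑ i, L P i * x' m i) ∧
      (E P = 0 → ∑ i, L P i * x' m i = 0) := by
    intro P hPp
    exact ⟨fun h4 => h1 P ⟨hPp, h4⟩, fun h4 => hrel m (L P) (by rw [hLx P hPp, h4])⟩
  refine core htr hy hcl hm1 hω₀ hω₀0 hord hE (fun P hPp => ?_) fun P hPp => ⟨fun h4 => ?_,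
    fun h4 => ?_⟩
  · rw [hed]
    beta_reduce
    by_cases h4 : E P = 0
    · rw [(hval P hPp).2 h4]
      simp
    · have := (hval P hPp).1 h4
      positivity
  · rw [hed]
    beta_reduce
    rw [(hval P hPp).2 h4]
    simp
  · by_contra h5
    have h6 := (hval P hPp).1 h5
    rw [hed] at h4
    have h7 : (0 : ℚ) < m1 * ((∑ i, L P i * x' m i) / z0) := by positivity
    exact h7.ne' h4

end

end Pool.Agent.T2H07
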